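import Mathlib

set_option autoImplicit false

/-!
# The discrete Beta law and its scaling limit (slit strip, MP_fe58d8_pr)

If `p 0 M = (1/2) ∏_{m<M} (3m+4)/(3m+5)` and
`p (A+1) B - p A (B+1) = (1/5) (4/3)_A/(2)_A (4/3)_B/(2)_B (3)_{A+B}/(8/3)_{A+B}` then
`p A B` converges to the distribution function of the Beta(1/3,1/3) law at `s` when `A + B → ∞` and
`A / (A + B) → s`.
-/

namespace Pool.Agent.H68.Slit

open Filter Topology Finset MeasureTheory

/-- ratio of rising factorials `(x)_n / (y)_n` -/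
noncomputable def rf (x y : ℝ) (n : ℕ) : ℝ := ∏ j ∈ range n, (((j : ℝ) + x) / (j + y))

lemma rf_pos {x y : ℝ} (hx : 0 < x) (hy : 0 < y) (n : ℕ) : 0 < rf x y n :=
  Finset.prod_pos fun j _ => by positivity

lemma rf_succ (x y : ℝ) (n : ℕ) : rf x y (n + 1) = rf x y n * (((n : ℝ) + x) / (n + y)) :=
  Finset.prod_range_succ _ _

theorem rf_tendsto_aux {x y : ℝ} (hx : 0 < x) (hy : 0 < y) :
    Tendsto (fun n : ℕ => rf x y (n + 1) * (n : ℝ) ^ (y - x)) atTop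
      (𝓝 (Real.Gamma y / Real.Gamma x)) := by
  have h1 := (Real.GammaSeq_tendsto_Gamma y).div (Real.GammaSeq_tendsto_Gamma x)
    (Real.Gamma_pos_of_pos hx).ne'
  refine h1.congr' ?_
  filter_upwards [eventually_gt_atTop 0] with n hn
  have hn' : (0 : ℝ) < n := by exact_mod_cast hn
  have hf : ((n.factorial : ℕ) : ℝ) ≠ 0 := by positivity
  have hPx : (∏ j ∈ range (n + 1), (x + (j : ℝ))) ≠ 0 :=
    Finset.prod_ne_zero_iff.2 fun j _ => by positivity
  have hPy : (∏ j ∈ range (n + 1), (y + (j : ℝ))) ≠ 0 :=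
    Finset.prod_ne_zero_iff.2 fun j _ => by positivity
  have h2 : rf x y (n + 1) = (∏ j ∈ range (n + 1), (x + (j : ℝ))) /
      ∏ j ∈ range (n + 1), (y + (j : ℝ)) := by
    unfold rf
    rw [← Finset.prod_div_distrib]
    refine Finset.prod_congr rfl fun j _ => ?_
    rw [add_comm x, add_comm y]
  have hxn : (n : ℝ) ^ x ≠ 0 := (Real.rpow_pos_of_pos hn' x).ne'
  simp only [Pi.div_apply, Real.GammaSeq]
  rw [h2, Real.rpow_sub hn']
  field_simp

theorem ratio_tendsto_one (c : ℝ) (r : ℝ) :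
    Tendsto (fun n : ℕ => (((n : ℝ) + c) / n) ^ r) atTop (𝓝 1) := by
  have h1 : Tendsto (fun n : ℕ => (((n : ℝ) + c) / n)) atTop (𝓝 1) := by
    have h2 : Tendsto (fun n : ℕ => 1 + c / (n : ℝ)) atTop (𝓝 (1 + 0)) :=
      (tendsto_const_div_atTop_nhds_zero_nat c).const_add 1
    rw [add_zero] at h2
    refine h2.congr' ?_
    filter_upwards [eventually_gt_atTop 0] with n hn
    have hn' : (n : ℝ) ≠ 0 := by positivity
    field_simp
  have h3 := h1.rpow_const (p := r) (Or.inl one_ne_zero)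
  rwa [Real.one_rpow] at h3

/-- `(x)_n/(y)_n ~ Γ(y)/Γ(x) (n+1)^{x-y}` -/
theorem rf_tendsto {x y : ℝ} (hx : 0 < x) (hy : 0 < y) :
    Tendsto (fun n : ℕ => rf x y n * ((n : ℝ) + 1) ^ (y - x)) atTop
      (𝓝 (Real.Gamma y / Real.Gamma x)) := by
  rw [← tendsto_add_atTop_iff_nat 1]
  have h1 := (rf_tendsto_aux hx hy).mul (ratio_tendsto_one 2 (y - x))
  rw [mul_one] at h1
  refine h1.congr' ?_
  filter_upwards [eventually_gt_atTop 0] with n hn
  have hn' : (0 : ℝ) < n := by exact_mod_cast hn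
  rw [mul_assoc, ← Real.mul_rpow hn'.le (by positivity)]
  congr 2
  push_cast
  field_simp
  ring

theorem rf_bdd {x y : ℝ} (hx : 0 < x) (hy : 0 < y) :
    ∃ C : ℝ, 0 < C ∧ ∀ n : ℕ, rf x y n * ((n : ℝ) + 1) ^ (y - x) ≤ C := by
  obtain ⟨C, hC⟩ := (rf_tendsto hx hy).bddAbove_range
  refine ⟨max C 1, lt_max_of_lt_right one_pos, fun n => le_max_of_le_left (hC ⟨n, rfl⟩)⟩

/-- the increments -/
noncomputable def ww (A B : ℕ) : ℝ :=
  1 / 5 * rf (4 / 3) 2 A * rf (4 / 3) 2 B * rf 3 (8 / 3) (A + B)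

/-- the step function -/
noncomputable def step (N : ℕ) (x : ℝ) : ℝ :=
  N * ww (⌈x * N⌉₊ - 1) (N - ⌈x * N⌉₊)

lemma step_eq {N k : ℕ} (hN : 0 < N) {x : ℝ} (hx : x ∈ Set.Ioc ((k : ℝ) / N) (((k : ℝ) + 1) / N)) :
    step N x = N * ww k (N - 1 - k) := by
  have hN' : (0 : ℝ) < N := by exact_mod_cast hN
  have h1 : ⌈x * N⌉₊ = k + 1 := by
    rw [Nat.ceil_eq_iff (Nat.succ_ne_zero k)]
    constructor
    · have := (div_lt_iff₀ hN').1 hx.1
      push_cast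
      simpa using this
    · have := (le_div_iff₀ hN').1 hx.2
      push_cast
      exact this
  rw [step, h1]
  congr 2
  omega

lemma integral_step_piece {N k : ℕ} (hN : 0 < N) :
    IntervalIntegrable (step N) volume ((k : ℝ) / N) (((k : ℝ) + 1) / N) ∧
    ∫ x in ((k : ℝ) / N)..(((k : ℝ) + 1) / N), step N x = ww k (N - 1 - k) := by
  have hN' : (0 : ℝ) < N := by exact_mod_cast hN
  have hle : ((k : ℝ) / N) ≤ (((k : ℝ) + 1) / N) := by gcongr; linarith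
  have h1 : ∀ x ∈ Set.uIoc ((k : ℝ) / N) (((k : ℝ) + 1) / N), step N x = N * ww k (N - 1 - k) := by
    intro x hx
    rw [Set.uIoc_of_le hle] at hx
    exact step_eq hN hx
  constructor
  · have h2 : IntervalIntegrable (fun _ : ℝ => (N : ℝ) * ww k (N - 1 - k)) volume
        ((k : ℝ) / N) (((k : ℝ) + 1) / N) := intervalIntegrable_const
    refine h2.congr ?_
    intro x hx
    exact (h1 x hx).symm
  · rw [intervalIntegral.integral_congr_ae (g := fun _ => (N : ℝ) * ww k (N - 1 - k))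
      (Filter.Eventually.of_forall h1), intervalIntegral.integral_const, smul_eq_mul]
    field_simp
    ring

lemma integral_step {N : ℕ} (hN : 0 < N) (k : ℕ) :
    IntervalIntegrable (step N) volume 0 ((k : ℝ) / N) ∧
    ∫ x in (0 : ℝ)..((k : ℝ) / N), step N x = ∑ j ∈ range k, ww j (N - 1 - j) := by
  induction k with
  | zero => simp
  | succ k ih =>
    obtain ⟨h1, h2⟩ := integral_step_piece (k := k) hN
    push_cast
    refine ⟨ih.1.trans h1, ?_⟩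
    rw [← intervalIntegral.integral_add_adjacent_intervals ih.1 h1, ih.2, h2,
      Finset.sum_range_succ]

/-- normalised coefficients -/
noncomputable def UU (n : ℕ) : ℝ := rf (4 / 3) 2 n * ((n : ℝ) + 1) ^ ((2 : ℝ) - 4 / 3)

/-- normalised coefficients -/
noncomputable def VV (n : ℕ) : ℝ := rf 3 (8 / 3) n * ((n : ℝ) + 1) ^ ((8 / 3 : ℝ) - 3)

lemma UU_pos (n : ℕ) : 0 < UU n :=
  mul_pos (rf_pos (by norm_num) (by norm_num) n) (Real.rpow_pos_of_pos (by positivity) _)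

lemma VV_pos (n : ℕ) : 0 < VV n :=
  mul_pos (rf_pos (by norm_num) (by norm_num) n) (Real.rpow_pos_of_pos (by positivity) _)

lemma rf_eq_UU (n : ℕ) : rf (4 / 3) 2 n = UU n * ((n : ℝ) + 1) ^ (-(2 / 3) : ℝ) := by
  have h : (0 : ℝ) < (n : ℝ) + 1 := by positivity
  rw [UU, mul_assoc, ← Real.rpow_add h]
  norm_num

lemma rf_eq_VV (n : ℕ) : rf 3 (8 / 3) n = VV n * ((n : ℝ) + 1) ^ (1 / 3 : ℝ) := by
  have h : (0 : ℝ) < (n : ℝ) + 1 := by positivity
  rw [VV, mul_assoc, ← Real.rpow_add h]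
  norm_num

lemma ww_eq {N c : ℕ} (hc : 1 ≤ c) (hcN : c ≤ N) :
    (N : ℝ) * ww (c - 1) (N - c) = 1 / 5 * UU (c - 1) * UU (N - c) * VV (N - 1) *
      ((c : ℝ) / N) ^ (-(2 / 3) : ℝ) * (((N : ℝ) - c + 1) / N) ^ (-(2 / 3) : ℝ) := by
  have hN : (0 : ℝ) < N := by exact_mod_cast (by omega : 0 < N)
  have hc0 : (0 : ℝ) < c := by exact_mod_cast hc
  have hcN' : (0 : ℝ) < (N : ℝ) - c + 1 := by
    have : (c : ℝ) ≤ N := by exact_mod_cast hcN
    linarith
  have h1 : c - 1 + (N - c) = N - 1 := by omega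
  have e1 : (((c - 1 : ℕ) : ℝ) + 1) = c := by
    rw [Nat.cast_sub hc]; push_cast; ring
  have e2 : (((N - c : ℕ) : ℝ) + 1) = (N : ℝ) - c + 1 := by
    rw [Nat.cast_sub hcN]
  have e3 : (((N - 1 : ℕ) : ℝ) + 1) = N := by
    rw [Nat.cast_sub (by omega : 1 ≤ N)]; push_cast; ring
  rw [ww, h1, rf_eq_UU, rf_eq_UU, rf_eq_VV, e1, e2, e3, Real.div_rpow hc0.le hN.le,
    Real.div_rpow hcN'.le hN.le]
  have h2 : (N : ℝ) * (N : ℝ) ^ (1 / 3 : ℝ) =
      ((N : ℝ) ^ (-(2 / 3) : ℝ))⁻¹ * ((N : ℝ) ^ (-(2 / 3) : ℝ))⁻¹ := by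
    rw [← Real.rpow_neg hN.le, ← Real.rpow_add hN]
    nth_rewrite 1 [← Real.rpow_one (N : ℝ)]
    rw [← Real.rpow_add hN]
    norm_num
  calc _ = 1 / 5 * UU (c - 1) * UU (N - c) * VV (N - 1) * (c : ℝ) ^ (-(2 / 3) : ℝ) *
        ((N : ℝ) - c + 1) ^ (-(2 / 3) : ℝ) * ((N : ℝ) * (N : ℝ) ^ (1 / 3 : ℝ)) := by ring
    _ = _ := by rw [h2]; ring

lemma ceil_bounds {N : ℕ} (hN : 0 < N) {x : ℝ} (hx : x ∈ Set.Ioc (0 : ℝ) 1) :
    1 ≤ ⌈x * N⌉₊ ∧ ⌈x * N⌉₊ ≤ N ∧ x ≤ (⌈x * N⌉₊ : ℝ) / N ∧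
      1 - x ≤ ((N : ℝ) - ⌈x * N⌉₊ + 1) / N := by
  have hN' : (0 : ℝ) < N := by exact_mod_cast hN
  have hxN : 0 < x * N := mul_pos hx.1 hN'
  refine ⟨Nat.ceil_pos.2 hxN, ?_, ?_, ?_⟩
  · rw [Nat.ceil_le]
    nlinarith [hx.2]
  · rw [le_div_iff₀ hN']
    exact Nat.le_ceil _
  · rw [le_div_iff₀ hN']
    have := Nat.ceil_lt_add_one hxN.le
    linarith

lemma step_le : ∃ K : ℝ, 0 < K ∧ ∀ N : ℕ, 0 < N → ∀ x ∈ Set.Ioo (0 : ℝ) 1,
    0 ≤ step N x ∧ step N x ≤ K * (x ^ (-(2 / 3) : ℝ) * (1 - x) ^ (-(2 / 3) : ℝ)) := by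
  obtain ⟨C, hC, hC'⟩ := rf_bdd (x := 4 / 3) (y := 2) (by norm_num) (by norm_num)
  obtain ⟨C2, hC2, hC2'⟩ := rf_bdd (x := 3) (y := 8 / 3) (by norm_num) (by norm_num)
  refine ⟨1 / 5 * C * C * C2, by positivity, fun N hN x hx => ?_⟩
  have hN' : (0 : ℝ) < N := by exact_mod_cast hN
  obtain ⟨h1, h2, h3, h4⟩ := ceil_bounds hN ⟨hx.1, hx.2.le⟩
  have hx1 : 0 < 1 - x := by linarith [hx.2]
  have hp1 : (0 : ℝ) < (⌈x * N⌉₊ : ℝ) / N := lt_of_lt_of_le hx.1 h3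
  have hp2 : (0 : ℝ) < ((N : ℝ) - ⌈x * N⌉₊ + 1) / N := lt_of_lt_of_le hx1 h4
  have hq1 := Real.rpow_pos_of_pos hp1 (-(2 / 3) : ℝ)
  have hq2 := Real.rpow_pos_of_pos hp2 (-(2 / 3) : ℝ)
  have hU1 := UU_pos (⌈x * N⌉₊ - 1)
  have hU2 := UU_pos (N - ⌈x * N⌉₊)
  have hV := VV_pos (N - 1)
  rw [step, ww_eq h1 h2]
  constructor
  · positivity
  · have hr1 : ((⌈x * N⌉₊ : ℝ) / N) ^ (-(2 / 3) : ℝ) ≤ x ^ (-(2 / 3) : ℝ) :=
      Real.rpow_le_rpow_of_nonpos hx.1 h3 (by norm_num)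
    have hr2 : (((N : ℝ) - ⌈x * N⌉₊ + 1) / N) ^ (-(2 / 3) : ℝ) ≤ (1 - x) ^ (-(2 / 3) : ℝ) :=
      Real.rpow_le_rpow_of_nonpos hx1 h4 (by norm_num)
    rw [mul_assoc (1 / 5 * UU (⌈x * N⌉₊ - 1) * UU (N - ⌈x * N⌉₊) * VV (N - 1))]
    have k1 : UU (⌈x * N⌉₊ - 1) ≤ C := hC' _
    have k2 : UU (N - ⌈x * N⌉₊) ≤ C := hC' _
    have k3 : VV (N - 1) ≤ C2 := hC2' _
    have k4 : 0 ≤ x ^ (-(2 / 3) : ℝ) := Real.rpow_nonneg hx.1.le _
    gcongr

/-- the constant -/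
noncomputable def cB : ℝ := 1 / 5 * (Real.Gamma 2 / Real.Gamma (4 / 3)) *
  (Real.Gamma 2 / Real.Gamma (4 / 3)) * (Real.Gamma (8 / 3) / Real.Gamma 3)

lemma step_tendsto {x : ℝ} (hx : x ∈ Set.Ioo (0 : ℝ) 1) :
    Tendsto (fun N : ℕ => step N x) atTop
      (𝓝 (cB * (x ^ (-(2 / 3) : ℝ) * (1 - x) ^ (-(2 / 3) : ℝ)))) := by
  have hx1 : 0 < 1 - x := by linarith [hx.2]
  have hc1 : Tendsto (fun N : ℕ => (⌈x * N⌉₊ : ℝ) / N) atTop (𝓝 x) :=
    (tendsto_nat_ceil_mul_div_atTop hx.1.le).comp tendsto_natCast_atTop_atTop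
  have hc2 : Tendsto (fun N : ℕ => ((N : ℝ) - ⌈x * N⌉₊ + 1) / N) atTop (𝓝 (1 - x)) := by
    have h1 : Tendsto (fun N : ℕ => (1 : ℝ) - (⌈x * N⌉₊ : ℝ) / N + 1 / N) atTop
        (𝓝 (1 - x + 0)) :=
      (hc1.const_sub 1).add (tendsto_const_div_atTop_nhds_zero_nat 1)
    rw [add_zero] at h1
    refine h1.congr' ?_
    filter_upwards [eventually_gt_atTop 0] with N hN
    have hN' : (N : ℝ) ≠ 0 := by positivity
    field_simp
  have hm : Tendsto (fun N : ℕ => ⌈x * N⌉₊) atTop atTop := by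
    refine tendsto_nat_ceil_atTop.comp ?_
    exact (tendsto_natCast_atTop_atTop).const_mul_atTop hx.1
  have hm1 : Tendsto (fun N : ℕ => ⌈x * N⌉₊ - 1) atTop atTop :=
    (tendsto_sub_atTop_nat 1).comp hm
  have hm2 : Tendsto (fun N : ℕ => N - ⌈x * N⌉₊) atTop atTop := by
    have h1 : Tendsto (fun N : ℕ => ((N : ℝ) - ⌈x * N⌉₊ + 1)) atTop atTop := by
      have h2 := hc2.pos_mul_atTop hx1 tendsto_natCast_atTop_atTop
      refine h2.congr' ?_
      filter_upwards [eventually_gt_atTop 0] with N hN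
      have hN' : (N : ℝ) ≠ 0 := by positivity
      field_simp
    rw [tendsto_atTop_atTop] at h1 ⊢
    intro b
    obtain ⟨i, hi⟩ := h1 ((b : ℝ) + 1)
    refine ⟨max i 1, fun a ha => ?_⟩
    have h3 := hi a (le_trans (le_max_left _ _) ha)
    have h4 : 1 ≤ a := le_trans (le_max_right _ _) ha
    obtain ⟨_, h5, _, _⟩ := ceil_bounds (N := a) (by omega) ⟨hx.1, hx.2.le⟩
    have h6 : (b : ℝ) ≤ ((a - ⌈x * a⌉₊ : ℕ) : ℝ) := by
      rw [Nat.cast_sub h5]; linarith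
    exact_mod_cast h6
  have hm3 : Tendsto (fun N : ℕ => N - 1) atTop atTop := tendsto_sub_atTop_nat 1
  have hU : Tendsto UU atTop (𝓝 (Real.Gamma 2 / Real.Gamma (4 / 3))) :=
    rf_tendsto (by norm_num) (by norm_num)
  have hV : Tendsto VV atTop (𝓝 (Real.Gamma (8 / 3) / Real.Gamma 3)) :=
    rf_tendsto (by norm_num) (by norm_num)
  have hr1 := hc1.rpow_const (p := (-(2 / 3) : ℝ)) (Or.inl hx.1.ne')
  have hr2 := hc2.rpow_const (p := (-(2 / 3) : ℝ)) (Or.inl hx1.ne')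
  have hall := (((((hU.comp hm1).const_mul (1 / 5)).mul (hU.comp hm2)).mul (hV.comp hm3)).mul
    hr1).mul hr2
  have hval : 1 / 5 * (Real.Gamma 2 / Real.Gamma (4 / 3)) *
      (Real.Gamma 2 / Real.Gamma (4 / 3)) * (Real.Gamma (8 / 3) / Real.Gamma 3) *
      x ^ (-(2 / 3) : ℝ) * (1 - x) ^ (-(2 / 3) : ℝ) =
      cB * (x ^ (-(2 / 3) : ℝ) * (1 - x) ^ (-(2 / 3) : ℝ)) := by
    rw [cB]; ring
  rw [hval] at hall
  refine hall.congr' ?_
  filter_upwards [eventually_gt_atTop 0] with N hN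
  obtain ⟨h1, h2, h3, h4⟩ := ceil_bounds hN ⟨hx.1, hx.2.le⟩
  rw [step, ww_eq h1 h2]
  rfl

/-- the density -/
noncomputable def dens (x : ℝ) : ℝ := x ^ (-(2 / 3) : ℝ) * (1 - x) ^ (-(2 / 3) : ℝ)

lemma dens_le {x : ℝ} (hx : x ∈ Set.Ioo (0 : ℝ) 1) :
    dens x ≤ 2 * (x ^ (-(2 / 3) : ℝ) + (1 - x) ^ (-(2 / 3) : ℝ)) := by
  have hx1 : 0 < 1 - x := by linarith [hx.2]
  have h1 : 0 ≤ x ^ (-(2 / 3) : ℝ) := Real.rpow_nonneg hx.1.le _
  have h2 : 0 ≤ (1 - x) ^ (-(2 / 3) : ℝ) := Real.rpow_nonneg hx1.le _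
  have key : ∀ y : ℝ, 1 / 2 ≤ y → y ^ (-(2 / 3) : ℝ) ≤ 2 := by
    intro y hy
    have h3 : y ^ (-(2 / 3) : ℝ) ≤ (1 / 2 : ℝ) ^ (-(2 / 3) : ℝ) :=
      Real.rpow_le_rpow_of_nonpos (by norm_num) hy (by norm_num)
    have h4 : (1 / 2 : ℝ) ^ (-(2 / 3) : ℝ) ≤ (1 / 2 : ℝ) ^ (-1 : ℝ) :=
      Real.rpow_le_rpow_of_exponent_ge (by norm_num) (by norm_num) (by norm_num)
    have h5 : (1 / 2 : ℝ) ^ (-1 : ℝ) = 2 := by
      rw [Real.rpow_neg_one]; norm_num
    linarith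
  unfold dens
  rcases le_total x (1 / 2) with h | h
  · have := key (1 - x) (by linarith)
    nlinarith
  · have := key x h
    nlinarith

lemma dens_nonneg {x : ℝ} (hx : x ∈ Set.Ioo (0 : ℝ) 1) : 0 ≤ dens x :=
  mul_nonneg (Real.rpow_nonneg hx.1.le _) (Real.rpow_nonneg (by linarith [hx.2]) _)

lemma integrable_bound : IntegrableOn (fun x : ℝ => 2 * (x ^ (-(2 / 3) : ℝ) +
    (1 - x) ^ (-(2 / 3) : ℝ))) (Set.Ioo 0 1) := by
  have h1 : IntervalIntegrable (fun x : ℝ => x ^ (-(2 / 3) : ℝ)) volume 0 1 :=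
    intervalIntegral.intervalIntegrable_rpow' (by norm_num)
  have h2 : IntervalIntegrable (fun x : ℝ => (1 - x) ^ (-(2 / 3) : ℝ)) volume 0 1 := by
    have h3 := (h1.comp_sub_left 1)
    simp only [sub_zero, sub_self] at h3
    exact h3.symm
  have h4 := (h1.add h2).const_mul 2
  rw [intervalIntegrable_iff_integrableOn_Ioo_of_le zero_le_one] at h4
  exact h4

lemma measurable_dens : Measurable dens := by
  unfold dens
  fun_prop

lemma integrable_dens : IntegrableOn dens (Set.Ioo 0 1) := by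
  refine Integrable.mono' integrable_bound measurable_dens.aestronglyMeasurable ?_
  rw [ae_restrict_iff' measurableSet_Ioo]
  refine Filter.Eventually.of_forall fun x hx => ?_
  rw [Real.norm_of_nonneg (dens_nonneg hx)]
  exact dens_le hx

lemma measurable_step (N : ℕ) : Measurable (step N) := by
  unfold step
  have h1 : Measurable fun x : ℝ => ⌈x * N⌉₊ := Nat.measurable_ceil.comp (measurable_id.mul_const _)
  have h2 : Measurable fun k : ℕ => (N : ℝ) * ww (k - 1) (N - k) := measurable_from_top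
  exact h2.comp h1

/-- the limit of the sums -/
theorem sum_tendsto (A N : ℕ → ℕ) (s : ℝ) (hs0 : 0 ≤ s) (hs1 : s ≤ 1) (hAN : ∀ n, A n ≤ N n)
    (hN : Tendsto N atTop atTop)
    (hA : Tendsto (fun n => (A n : ℝ) / N n) atTop (𝓝 s)) :
    Tendsto (fun n => ∑ j ∈ range (A n), ww j (N n - 1 - j)) atTop
      (𝓝 (cB * ∫ x in (0 : ℝ)..s, dens x)) := by
  obtain ⟨K, hK, hbd⟩ := step_le
  have hkey : Tendsto (fun n => ∫ x in Set.Ioo (0 : ℝ) 1,
      (Set.Ioc (0 : ℝ) ((A n : ℝ) / N n)).indicator (step (N n)) x) atTop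
      (𝓝 (∫ x in Set.Ioo (0 : ℝ) 1, (Set.Ioc (0 : ℝ) s).indicator (fun x => cB * dens x) x)) := by
    refine tendsto_integral_filter_of_dominated_convergence
      (fun x => K * (2 * (x ^ (-(2 / 3) : ℝ) + (1 - x) ^ (-(2 / 3) : ℝ)))) ?_ ?_ ?_ ?_
    · exact Filter.Eventually.of_forall fun n =>
        ((measurable_step (N n)).indicator measurableSet_Ioc).aestronglyMeasurable
    · filter_upwards [hN.eventually_gt_atTop 0] with n hn
      rw [ae_restrict_iff' measurableSet_Ioo]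
      refine Filter.Eventually.of_forall fun x hx => ?_
      obtain ⟨h1, h2⟩ := hbd (N n) hn x hx
      have h3 := dens_le hx
      have h4 : 0 ≤ dens x := dens_nonneg hx
      have h5 : step (N n) x ≤ K * (2 * (x ^ (-(2 / 3) : ℝ) + (1 - x) ^ (-(2 / 3) : ℝ))) :=
        h2.trans (mul_le_mul_of_nonneg_left h3 hK.le)
      by_cases h6 : x ∈ Set.Ioc (0 : ℝ) ((A n : ℝ) / N n)
      · rw [Set.indicator_of_mem h6, Real.norm_of_nonneg h1]
        exact h5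
      · rw [Set.indicator_of_notMem h6, norm_zero]
        exact h1.trans h5
    · exact integrable_bound.const_mul K
    · have hne : ∀ᵐ x : ℝ ∂(volume.restrict (Set.Ioo (0 : ℝ) 1)), x ≠ s :=
        ae_restrict_of_ae (Measure.ae_ne volume s)
      rw [ae_restrict_iff' measurableSet_Ioo] at hne ⊢
      filter_upwards [hne] with x hxne hx
      have hxs := hxne hx
      have hst := (step_tendsto hx).comp hN
      rcases lt_or_gt_of_ne hxs with h | h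
      · rw [Set.indicator_of_mem (show x ∈ Set.Ioc (0 : ℝ) s from ⟨hx.1, h.le⟩)]
        refine hst.congr' ?_
        filter_upwards [hA.eventually_const_lt h] with n hn
        rw [Set.indicator_of_mem (show x ∈ Set.Ioc (0 : ℝ) ((A n : ℝ) / N n) from ⟨hx.1, hn.le⟩)]
        rfl
      · rw [Set.indicator_of_notMem (fun hmem => absurd hmem.2 (not_le.2 h))]
        refine tendsto_const_nhds.congr' ?_
        filter_upwards [hA.eventually_lt_const h] with n hn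
        rw [Set.indicator_of_notMem (fun hmem => absurd hmem.2 (not_le.2 hn))]
  have h1 : ∫ x in Set.Ioo (0 : ℝ) 1, (Set.Ioc (0 : ℝ) s).indicator (fun x => cB * dens x) x =
      cB * ∫ x in (0 : ℝ)..s, dens x := by
    rw [← integral_Ioc_eq_integral_Ioo, setIntegral_indicator measurableSet_Ioc,
      intervalIntegral.integral_of_le hs0, ← integral_const_mul]
    congr 2
    rw [Set.Ioc_inter_Ioc]
    simp [hs1]
  rw [h1] at hkey
  refine hkey.congr' ?_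
  filter_upwards [hN.eventually_gt_atTop 0] with n hn
  have hn' : (0 : ℝ) < N n := by exact_mod_cast hn
  have h2 : ((A n : ℝ) / N n) ≤ 1 := by
    rw [div_le_one hn']
    exact_mod_cast hAN n
  have h3 : (0 : ℝ) ≤ (A n : ℝ) / N n := by positivity
  rw [← (integral_step hn (A n)).2, intervalIntegral.integral_of_le h3,
    ← integral_Ioc_eq_integral_Ioo, setIntegral_indicator measurableSet_Ioc]
  congr 2
  rw [Set.Ioc_inter_Ioc]
  simp [h2]

/-- the discrete Beta law in closed form -/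
theorem law_eq {p : ℕ → ℕ → ℝ} (hstep : ∀ A B, p (A + 1) B - p A (B + 1) = ww A B) (N A : ℕ)
    (hA : A ≤ N) : p A (N - A) = p 0 N + ∑ j ∈ range A, ww j (N - 1 - j) := by
  induction A with
  | zero => simp
  | succ A ih =>
    have h1 := hstep A (N - (A + 1))
    have h2 : N - (A + 1) + 1 = N - A := by omega
    have h3 : N - (A + 1) = N - 1 - A := by omega
    rw [h2] at h1
    rw [Finset.sum_range_succ, ← add_assoc, ← ih (by omega)]
    rw [h3] at h1 ⊢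
    linarith

/-- the boundary values tend to zero -/
theorem boundary_tendsto : Tendsto (fun N : ℕ => 1 / 2 * rf (4 / 3) (5 / 3) N) atTop (𝓝 0) := by
  have h1 := rf_tendsto (x := 4 / 3) (y := 5 / 3) (by norm_num) (by norm_num)
  have h2 : Tendsto (fun N : ℕ => ((N : ℝ) + 1) ^ (-(1 / 3) : ℝ)) atTop (𝓝 0) := by
    have h3 : Tendsto (fun N : ℕ => (N : ℝ) + 1) atTop atTop :=
      tendsto_atTop_add_const_right _ _ tendsto_natCast_atTop_atTop
    exact (tendsto_rpow_neg_atTop (by norm_num : (0 : ℝ) < 1 / 3)).comp h3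
  have h3 := (h1.mul h2).const_mul (1 / 2)
  rw [mul_zero, mul_zero] at h3
  refine h3.congr fun N => ?_
  have h : (0 : ℝ) < (N : ℝ) + 1 := by positivity
  rw [mul_assoc, ← Real.rpow_add h]
  norm_num

lemma Gamma_third_pos : 0 < Real.Gamma (1 / 3) := Real.Gamma_pos_of_pos (by norm_num)

lemma cB_eq : cB = Real.Gamma (2 / 3) / Real.Gamma (1 / 3) ^ 2 := by
  have h1 : Real.Gamma (4 / 3) = 1 / 3 * Real.Gamma (1 / 3) := by
    rw [← Real.Gamma_add_one (by norm_num)]; norm_num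
  have h2 : Real.Gamma (8 / 3) = 5 / 3 * (2 / 3 * Real.Gamma (2 / 3)) := by
    have e1 : Real.Gamma (8 / 3) = 5 / 3 * Real.Gamma (5 / 3) := by
      rw [← Real.Gamma_add_one (by norm_num)]; norm_num
    have e2 : Real.Gamma (5 / 3) = 2 / 3 * Real.Gamma (2 / 3) := by
      rw [← Real.Gamma_add_one (by norm_num)]; norm_num
    rw [e1, e2]
  have h3 : Real.Gamma 3 = 2 := by
    have e1 : Real.Gamma 3 = 2 * Real.Gamma 2 := by
      rw [← Real.Gamma_add_one (by norm_num)]; norm_num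
    rw [e1, Real.Gamma_two, mul_one]
  have h4 : Real.Gamma 2 = 1 := Real.Gamma_two
  have h5 := Gamma_third_pos.ne'
  rw [cB, h1, h2, h3, h4]
  field_simp

/-- **Scaling limit of the discrete Beta law.** -/
theorem beta_law {p : ℕ → ℕ → ℝ} (h0 : ∀ M, p 0 M = 1 / 2 * rf (4 / 3) (5 / 3) M)
    (hstep : ∀ A B, p (A + 1) B - p A (B + 1) = ww A B) (A B : ℕ → ℕ) (s : ℝ)
    (hN : Tendsto (fun n => A n + B n) atTop atTop)
    (hs : Tendsto (fun n => (A n : ℝ) / ((A n : ℝ) + B n)) atTop (𝓝 s)) :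
    Tendsto (fun n => p (A n) (B n)) atTop
      (𝓝 (Real.Gamma (2 / 3) / Real.Gamma (1 / 3) ^ 2 *
        ∫ x in (0 : ℝ)..s, x ^ (-(2 / 3) : ℝ) * (1 - x) ^ (-(2 / 3) : ℝ))) := by
  have hs0 : 0 ≤ s := ge_of_tendsto hs (Filter.Eventually.of_forall fun n => by positivity)
  have hs1 : s ≤ 1 := le_of_tendsto hs (Filter.Eventually.of_forall fun n => by
    apply div_le_one_of_le₀
    · have : (0 : ℝ) ≤ B n := by positivity
      linarith
    · positivity)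
  have h1 := sum_tendsto A (fun n => A n + B n) s hs0 hs1 (fun n => Nat.le_add_right _ _) hN
    (by push_cast; exact hs)
  have h2 := (boundary_tendsto.comp hN).add h1
  rw [zero_add, cB_eq] at h2
  refine h2.congr fun n => ?_
  have h3 := law_eq hstep (A n + B n) (A n) (Nat.le_add_right _ _)
  rw [Nat.add_sub_cancel_left, h0] at h3
  rw [h3]
  rfl

/-- total mass -/
theorem integral_dens_one : ∫ x in (0 : ℝ)..1, x ^ (-(2 / 3) : ℝ) * (1 - x) ^ (-(2 / 3) : ℝ) =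
    Real.Gamma (1 / 3) ^ 2 / Real.Gamma (2 / 3) := by
  have h1 := Complex.betaIntegral_eq_Gamma_mul_div (1 / 3) (1 / 3) (by norm_num) (by norm_num)
  have h2 : Complex.betaIntegral (1 / 3) (1 / 3) =
      ((∫ x in (0 : ℝ)..1, x ^ (-(2 / 3) : ℝ) * (1 - x) ^ (-(2 / 3) : ℝ) : ℝ) : ℂ) := by
    rw [Complex.betaIntegral, ← intervalIntegral.integral_ofReal]
    refine intervalIntegral.integral_congr fun x hx => ?_
    rw [Set.uIcc_of_le zero_le_one] at hx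
    have e1 : (1 / 3 - 1 : ℂ) = ((-(2 / 3) : ℝ) : ℂ) := by push_cast; ring
    rw [e1, Complex.ofReal_mul, Complex.ofReal_cpow hx.1, Complex.ofReal_cpow (by linarith [hx.2])]
    push_cast
    rfl
  have h3 : (1 / 3 : ℂ) = ((1 / 3 : ℝ) : ℂ) := by push_cast; ring
  have h4 : (1 / 3 + 1 / 3 : ℂ) = ((2 / 3 : ℝ) : ℂ) := by push_cast; ring
  rw [h2, h4, h3, Complex.Gamma_ofReal, Complex.Gamma_ofReal] at h1
  have h5 : ((∫ x in (0 : ℝ)..1, x ^ (-(2 / 3) : ℝ) * (1 - x) ^ (-(2 / 3) : ℝ) : ℝ) : ℂ) =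
      ((Real.Gamma (1 / 3) ^ 2 / Real.Gamma (2 / 3) : ℝ) : ℂ) := by
    rw [h1]; push_cast; ring
  exact_mod_cast h5

end Pool.Agent.H68.Slit
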