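import Pool.Agent.H68.Slit.QEq
import Pool.Agent.H59.Slit.Defs

set_option autoImplicit false

/-!
# Homogeneous reduction of the slit strip law: explicit coefficients of `H1` (MP_fe58d8_pr)
-/

namespace Pool.Agent.H68.SlitH

open Finset LaurentPolynomial
open Pool.Agent.H59.Slit (rp)

/-- `1 / n!` on the integers -/
def ivf (n : ℤ) : ℚ := if n < 0 then 0 else 1 / (n.toNat.factorial : ℚ)

lemma ivf_nat (n : ℕ) : ivf n = 1 / (n.factorial : ℚ) := by
  unfold ivf
  rw [if_neg (by omega), Int.toNat_natCast]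

lemma ivf_neg {n : ℤ} (h : n < 0) : ivf n = 0 := if_pos h

lemma ivf_pred (n : ℤ) : ivf (n - 1) = n * ivf n := by
  rcases lt_trichotomy n 0 with h | h | h
  · rw [ivf_neg h, ivf_neg (by omega), mul_zero]
  · rw [h, ivf_neg (by omega)]
    simp
  · obtain ⟨k, hk⟩ := Int.eq_ofNat_of_zero_le (show 0 ≤ n - 1 by omega)
    have hn : n = ((k + 1 : ℕ) : ℤ) := by push_cast; omega
    rw [hk, hn, ivf_nat, ivf_nat, Nat.factorial_succ]
    have h1 : (k.factorial : ℚ) ≠ 0 := by positivity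
    have h2 : (k : ℚ) + 1 ≠ 0 := by positivity
    push_cast
    field_simp

lemma rp_succ (x : ℚ) (n : ℕ) : rp x (n + 1) = rp x n * (x + n) := prod_range_succ _ _

lemma rp_zero (x : ℚ) : rp x 0 = 1 := prod_range_zero _

lemma rp_pos {x : ℚ} (hx : 0 < x) (n : ℕ) : 0 < rp x n :=
  prod_pos fun j _ => by positivity

lemma rp_ne {x : ℚ} (hx : 0 < x) (n : ℕ) : rp x n ≠ 0 := (rp_pos hx n).ne'

lemma rp_shift (x : ℚ) (n : ℕ) : rp x (n + 1) = x * rp (x + 1) n := by
  induction n with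
  | zero => rw [rp_succ, rp_zero, rp_zero]; simp
  | succ n ih => rw [rp_succ, ih, rp_succ]; push_cast; ring

/-- `1 / (x)_n` on the integers -/
def irp (x : ℚ) : ℤ → ℚ
  | Int.ofNat n => (rp x n)⁻¹
  | Int.negSucc n => ∏ j ∈ range (n + 1), (x - 1 - j)

lemma irp_nat (x : ℚ) (n : ℕ) : irp x n = (rp x n)⁻¹ := rfl

lemma irp_pred {x : ℚ} (hx : 0 < x) (n : ℤ) : irp x (n - 1) = (x + n - 1) * irp x n := by
  rcases n with n | n
  · rcases n with _ | n
    · have h1 : irp x (Int.ofNat 0 - 1) = ∏ j ∈ range (0 + 1), (x - 1 - j) := rfl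
      have h2 : irp x (Int.ofNat 0) = 1 := by
        change (rp x 0)⁻¹ = 1
        rw [rp_zero, inv_one]
      rw [h1, h2]
      simp
    · have h1 : Int.ofNat (n + 1) - 1 = (n : ℤ) := by
        change ((n + 1 : ℕ) : ℤ) - 1 = n
        push_cast
        ring
      rw [h1]
      change (rp x n)⁻¹ = _ * (rp x (n + 1))⁻¹
      have h2 := rp_ne hx n
      have h3 : x + (n : ℚ) ≠ 0 := by positivity
      rw [rp_succ]
      change (rp x n)⁻¹ = (x + (((n + 1 : ℕ) : ℤ) : ℚ) - 1) * _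
      push_cast
      rw [show x + ((n : ℚ) + 1) - 1 = x + n by ring]
      field_simp
  · have h1 : Int.negSucc n - 1 = Int.negSucc (n + 1) := by
      rw [Int.negSucc_eq, Int.negSucc_eq]; push_cast; ring
    rw [h1]
    change ∏ j ∈ range (n + 1 + 1), (x - 1 - j) = _ * ∏ j ∈ range (n + 1), (x - 1 - j)
    rw [prod_range_succ, Int.negSucc_eq]
    push_cast
    ring

lemma irp_shift {x : ℚ} (hx : 0 < x) (n : ℤ) : irp x (n + 1) * x = irp (x + 1) n := by
  have hx' : 0 < x + 1 := by positivity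
  induction n using Int.induction_on with
  | zero =>
    change irp x ((1 : ℕ) : ℤ) * x = irp (x + 1) ((0 : ℕ) : ℤ)
    rw [irp_nat, irp_nat, rp_succ, rp_zero, rp_zero]
    have := hx.ne'
    simp [this]
  | succ n ih =>
    have h1 := irp_pred hx' ((n : ℤ) + 1)
    have h2 := irp_pred hx ((n : ℤ) + 1 + 1)
    rw [add_sub_cancel_right] at h1 h2
    push_cast at h1 h2
    rw [h1, h2] at ih
    have h3 : x + 1 + ((n : ℚ) + 1) - 1 ≠ 0 := by
      have : 0 ≤ (n : ℚ) := by positivity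
      intro h
      linarith
    refine mul_left_cancel₀ h3 ?_
    rw [← ih]
    ring
  | pred n ih =>
    have h1 := irp_pred hx' (-(n : ℤ))
    have h2 := irp_pred hx (-(n : ℤ) + 1)
    rw [show -(n : ℤ) - 1 + 1 = -(n : ℤ) + 1 - 1 by ring, h1, h2, ← ih]
    push_cast
    ring

def De (p : ℕ) (k : ℤ) : ℚ :=
  ((2 * p + 1).factorial * (2 * p).factorial / 9 ^ (2 * p) : ℚ) *
    (ivf (k + p) * ivf (p - k) * irp (5 / 3) (k + p) * irp (1 / 3) (p - k))

def Do (p : ℕ) (k : ℤ) : ℚ :=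
  (-2 * (2 * p + 2).factorial * (2 * p + 1).factorial / 9 ^ (2 * p + 1) : ℚ) *
    (ivf (k + p + 1) * ivf (p - k) * irp (2 / 3) (k + p + 1) * irp (4 / 3) (p - k))

lemma De_rec (p : ℕ) (k : ℤ) : (6 * (p : ℚ) + 5) * (6 * p + 8) * De (p + 1) k =
    ((2 * p + 2) * (2 * p + 3) / 9) * (De p (k - 1) + De p (k + 1) - 2 * De p k) -
      2 * (4 * p + 3) * (2 * p + 3) * Do p k := by
  have f1 : ((2 * (p + 1) + 1).factorial : ℚ) = (2 * p + 3) * (2 * p + 2) * (2 * p + 1).factorial := by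
    rw [show 2 * (p + 1) + 1 = 2 * p + 1 + 1 + 1 by ring, Nat.factorial_succ, Nat.factorial_succ]
    push_cast; ring
  have f2 : ((2 * (p + 1)).factorial : ℚ) = (2 * p + 2) * (2 * p + 1).factorial := by
    rw [show 2 * (p + 1) = 2 * p + 1 + 1 by ring, Nat.factorial_succ]
    push_cast; ring
  have f3 : ((2 * p + 2).factorial : ℚ) = (2 * p + 2) * (2 * p + 1).factorial := by
    rw [show 2 * p + 2 = 2 * p + 1 + 1 by ring, Nat.factorial_succ]
    push_cast; ring
  have f4 : ((2 * p + 1).factorial : ℚ) = (2 * p + 1) * (2 * p).factorial := by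
    rw [Nat.factorial_succ]
    push_cast; ring
  unfold De Do
  rw [f1, f2, f3, f4]
  -- indices
  have a1 : (k + ((p + 1 : ℕ) : ℤ)) = k + p + 1 := by push_cast; ring
  have a2 : (((p + 1 : ℕ) : ℤ) - k) = p + 1 - k := by push_cast; ring
  rw [a1, a2]
  have i1 := ivf_pred (k + p + 1)
  have i2 := ivf_pred (k + p + 1 - 1)
  have l1 := ivf_pred (p + 1 - k)
  have l2 := ivf_pred (p + 1 - k - 1)
  have r1 := irp_pred (x := 5 / 3) (by norm_num) (k + p + 1)
  have r2 := irp_pred (x := 5 / 3) (by norm_num) (k + p + 1 - 1)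
  have s1 := irp_pred (x := 1 / 3) (by norm_num) (p + 1 - k)
  have s2 := irp_pred (x := 1 / 3) (by norm_num) (p + 1 - k - 1)
  have t1 := irp_shift (x := 2 / 3) (by norm_num) (k + p)
  have t2 := irp_shift (x := 1 / 3) (by norm_num) (p - k)
  norm_num at t1 t2
  have t1' : irp (2 / 3) (k + p + 1) = 3 / 2 * irp (5 / 3) (k + p) := by linear_combination 3 / 2 * t1
  rw [t1', ← t2]
  rw [show k - 1 + (p : ℤ) = k + p + 1 - 1 - 1 by ring, show (p : ℤ) - (k - 1) = p + 1 - k by ring,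
    show k + 1 + (p : ℤ) = k + p + 1 by ring, show (p : ℤ) - (k + 1) = p + 1 - k - 1 - 1 by ring,
    show k + (p : ℤ) = k + p + 1 - 1 by ring, show (p : ℤ) - k + 1 = p + 1 - k by ring,
    show (p : ℤ) - k = p + 1 - k - 1 by ring]
  rw [show k + (p : ℤ) + 1 - 1 + 1 = k + p + 1 by ring]
  rw [i2, l2, r2, s2, i1, l1, r1, s1]
  push_cast
  rw [show 2 * (p + 1) = 2 * p + 1 + 1 by ring, pow_succ, pow_succ]
  field_simp
  ring

lemma Do_rec (p : ℕ) (k : ℤ) : (6 * (p : ℚ) + 7) * (6 * p + 10) * Do (p + 1) k =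
    ((2 * p + 3) * (2 * p + 4) / 9) * (Do p (k - 1) + Do p (k + 1) - 2 * Do p k) -
      2 * (4 * p + 5) * (2 * p + 4) * De (p + 1) k := by
  have f1 : ((2 * (p + 1) + 2).factorial : ℚ) = (2 * p + 4) * (2 * p + 3) * (2 * p + 2).factorial := by
    rw [show 2 * (p + 1) + 2 = 2 * p + 2 + 1 + 1 by ring, Nat.factorial_succ, Nat.factorial_succ]
    push_cast; ring
  have f2 : ((2 * (p + 1) + 1).factorial : ℚ) = (2 * p + 3) * (2 * p + 2).factorial := by
    rw [show 2 * (p + 1) + 1 = 2 * p + 2 + 1 by ring, Nat.factorial_succ]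
    push_cast; ring
  have f3 : ((2 * (p + 1)).factorial : ℚ) = (2 * p + 2).factorial := by
    rw [show 2 * (p + 1) = 2 * p + 2 by ring]
  have f4 : ((2 * p + 2).factorial : ℚ) = (2 * p + 2) * (2 * p + 1).factorial := by
    rw [Nat.factorial_succ]
    push_cast; ring
  unfold De Do
  rw [f1, f2, f3, f4]
  have a1 : (k + ((p + 1 : ℕ) : ℤ)) = k + p + 1 := by push_cast; ring
  have a2 : (((p + 1 : ℕ) : ℤ) - k) = p + 1 - k := by push_cast; ring
  rw [a1, a2]
  have i1 := ivf_pred (k + p + 2)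
  have i2 := ivf_pred (k + p + 2 - 1)
  have l1 := ivf_pred (p + 1 - k)
  have l2 := ivf_pred (p + 1 - k - 1)
  have r1 := irp_pred (x := 2 / 3) (by norm_num) (k + p + 2)
  have r2 := irp_pred (x := 2 / 3) (by norm_num) (k + p + 2 - 1)
  have s1 := irp_pred (x := 4 / 3) (by norm_num) (p + 1 - k)
  have s2 := irp_pred (x := 4 / 3) (by norm_num) (p + 1 - k - 1)
  have t1 := irp_shift (x := 2 / 3) (by norm_num) (k + p + 1)
  have t2 := irp_shift (x := 1 / 3) (by norm_num) (p + 1 - k - 1)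
  norm_num at t1
  have t2' : irp (1 / 3) (p + 1 - k) = 3 * irp (4 / 3) (p + 1 - k - 1) := by
    rw [show (1 / 3 + 1 : ℚ) = 4 / 3 by norm_num, show (p : ℤ) + 1 - k - 1 + 1 = p + 1 - k by ring]
      at t2
    linear_combination 3 * t2
  rw [← t1, t2']
  rw [show k - 1 + (p : ℤ) + 1 = k + p + 2 - 1 - 1 by ring,
    show (p : ℤ) - (k - 1) = p + 1 - k by ring,
    show k + 1 + (p : ℤ) + 1 = k + p + 2 by ring,
    show (p : ℤ) - (k + 1) = p + 1 - k - 1 - 1 by ring,
    show k + (p : ℤ) + 1 + 1 = k + p + 2 by ring,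
    show k + (p : ℤ) + 1 = k + p + 2 - 1 by ring,
    show (p : ℤ) - k = p + 1 - k - 1 by ring]
  rw [i2, l2, r2, s2, i1, l1, r1, s1]
  push_cast
  rw [show 2 * (p + 1) = 2 * p + 1 + 1 by ring, pow_succ, pow_succ]
  field_simp
  ring

end Pool.Agent.H68.SlitH
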