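import Mathlib

set_option autoImplicit false

/-!
# Homogeneous reduction of the slit strip law: the functionals `Lam N` and their duality
(MP_fe58d8_pr)
-/

namespace Pool.Agent.H68.SlitH

open Finset LaurentPolynomial

/-- the positive integers not divisible by three -/
def eps (j : ℕ) : ℕ := j + 1 + j / 2

/-- `e ∏_{j<N} (e² - eps_j²)` -/
def lamh (N : ℕ) (e : ℚ) : ℚ := e * ∏ j ∈ range N, (e ^ 2 - (eps j : ℚ) ^ 2)

def kap (A : ℕ) : ℚ :=
  if A % 2 = 0 then (3 * A + 5) * (3 * A + 8) else (3 * A + 4) * (3 * A + 7)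

lemma kap_even (m : ℕ) : kap (2 * m) = (6 * m + 5) * (6 * m + 8) := by
  unfold kap
  rw [if_pos (by omega)]
  push_cast
  ring

lemma kap_odd (m : ℕ) : kap (2 * m + 1) = (6 * m + 7) * (6 * m + 10) := by
  unfold kap
  rw [if_neg (by omega)]
  push_cast
  ring

lemma kap_pos (A : ℕ) : 0 < kap A := by
  unfold kap
  split_ifs <;> positivity

lemma kap_ne (A : ℕ) : kap A ≠ 0 := (kap_pos A).ne'

lemma eps_even (m : ℕ) : eps (2 * m) = 3 * m + 1 := by unfold eps; omega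

lemma eps_odd (m : ℕ) : eps (2 * m + 1) = 3 * m + 2 := by unfold eps; omega

/-- the product over the first `2m` factors -/
def RR (m : ℕ) (e : ℚ) : ℚ := ∏ j ∈ range (2 * m), (e ^ 2 - (eps j : ℚ) ^ 2)

lemma RR_succ (m : ℕ) (e : ℚ) :
    RR (m + 1) e = RR m e * (e ^ 2 - (3 * m + 1) ^ 2) * (e ^ 2 - (3 * m + 2) ^ 2) := by
  unfold RR
  rw [show 2 * (m + 1) = 2 * m + 1 + 1 by ring, prod_range_succ, prod_range_succ, eps_even, eps_odd]
  push_cast
  ring

lemma RR_neg (m : ℕ) (e : ℚ) : RR m (-e) = RR m e := by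
  unfold RR
  refine prod_congr rfl fun j _ => by ring

lemma RR_shift (m : ℕ) (e : ℚ) :
    RR (m + 1) (e + 3) =
      RR m e * ((e + 3 * m + 1) * (e + 3 * m + 2) * (e + 3 * m + 4) * (e + 3 * m + 5)) := by
  induction m with
  | zero =>
    rw [RR_succ]
    simp [RR]
    ring
  | succ m ih =>
    rw [RR_succ (m + 1) (e + 3), ih, RR_succ m e]
    push_cast
    ring

lemma RR_shift' (m : ℕ) (e : ℚ) :
    RR (m + 1) (e - 3) =
      RR m e * ((e - 3 * m - 1) * (e - 3 * m - 2) * (e - 3 * m - 4) * (e - 3 * m - 5)) := by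
  have h := RR_shift m (-e)
  rw [RR_neg m e] at h
  have h2 : RR (m + 1) (e - 3) = RR (m + 1) (-e + 3) := by
    rw [← RR_neg (m + 1) (e - 3)]
    congr 1
    ring
  rw [h2, h]
  ring

lemma lamh_even (m : ℕ) (e : ℚ) : lamh (2 * m) e = e * RR m e := rfl

lemma lamh_odd (m : ℕ) (e : ℚ) :
    lamh (2 * m + 1) e = e * RR m e * (e ^ 2 - (3 * m + 1) ^ 2) := by
  unfold lamh RR
  rw [prod_range_succ, eps_even]
  push_cast
  ring

theorem lamh_dual (N : ℕ) (e : ℚ) :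
    lamh (N + 2) (e + 3) + lamh (N + 2) (e - 3) - 2 * lamh (N + 2) e =
      9 * (N + 1) * (N + 2) * kap N * lamh N e + 18 * (2 * N + 5) * (N + 2) * lamh (N + 1) e := by
  rcases Nat.even_or_odd' N with ⟨m, rfl | rfl⟩
  · rw [show 2 * m + 2 = 2 * (m + 1) by ring, lamh_even, lamh_even, lamh_even, RR_shift, RR_shift',
      RR_succ, lamh_even, lamh_odd, kap_even]
    push_cast
    ring
  · rw [show 2 * m + 1 + 2 = 2 * (m + 1) + 1 by ring, show 2 * m + 1 + 1 = 2 * (m + 1) by ring,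
      lamh_odd, lamh_odd, lamh_odd, RR_shift, RR_shift', RR_succ, lamh_odd, lamh_even, RR_succ,
      kap_odd]
    push_cast
    ring

lemma lamh_dual_one (e : ℚ) :
    lamh 1 (e + 3) + lamh 1 (e - 3) - 2 * lamh 1 e = 54 * lamh 0 e := by
  simp [lamh, eps]
  ring

lemma lamh_dual_zero (e : ℚ) :
    lamh 0 (e + 3) + lamh 0 (e - 3) - 2 * lamh 0 e = 0 := by
  simp [lamh]
  ring

lemma lamh_neg (N : ℕ) (e : ℚ) : lamh N (-e) = - lamh N e := by
  unfold lamh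
  rw [neg_mul]
  congr 2
  refine prod_congr rfl fun j _ => by ring

lemma lamh_eps {N j : ℕ} (h : j < N) : lamh N (eps j) = 0 := by
  unfold lamh
  rw [prod_eq_zero (mem_range.2 h) (by ring), mul_zero]

/-- the values `e = 3k+2` killed by `lamh N` -/
lemma lamh_kill {N : ℕ} {k : ℤ} (h1 : -((N + 1) / 2 : ℕ) ≤ k) (h2 : k + 1 ≤ (N / 2 : ℕ)) :
    lamh N ((3 * k + 2 : ℤ) : ℚ) = 0 := by
  rcases le_or_gt 0 k with hk | hk
  · obtain ⟨i, rfl⟩ := Int.eq_ofNat_of_zero_le hk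
    have : ((3 * (i : ℤ) + 2 : ℤ) : ℚ) = (eps (2 * i + 1) : ℚ) := by
      rw [eps_odd]; push_cast; ring
    rw [this]
    exact lamh_eps (by omega)
  · obtain ⟨i, hi⟩ := Int.eq_ofNat_of_zero_le (show 0 ≤ -k - 1 by omega)
    have : ((3 * k + 2 : ℤ) : ℚ) = - (eps (2 * i) : ℚ) := by
      rw [eps_even, show k = -(i : ℤ) - 1 by omega]; push_cast; ring
    rw [this, lamh_neg, lamh_eps (by omega), neg_zero]

/-- the linear functional `T^e ↦ lamh N e` -/
noncomputable def Lam (N : ℕ) : ℚ[T;T⁻¹] →ₗ[ℚ] ℚ :=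
  (Finsupp.linearCombination ℚ (fun e : ℤ => lamh N (e : ℚ))) ∘ₗ
    (AddMonoidAlgebra.coeffLinearEquiv ℚ).toLinearMap

lemma Lam_T (N : ℕ) (e : ℤ) : Lam N (T e) = lamh N e := by
  have h : (T e : ℚ[T;T⁻¹]).coeff = Finsupp.single e 1 := rfl
  unfold Lam
  rw [LinearMap.comp_apply]
  change Finsupp.linearCombination ℚ (fun e : ℤ => lamh N (e : ℚ)) (T e : ℚ[T;T⁻¹]).coeff = _
  rw [h, Finsupp.linearCombination_single, one_smul]

lemma Lam_CT (N : ℕ) (a : ℚ) (e : ℤ) : Lam N (C a * T e) = a * lamh N e := by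
  rw [← smul_eq_C_mul, map_smul, Lam_T, smul_eq_mul]

/-- the multiplier `z³ + z⁻³ - 2` -/
noncomputable def Yc : ℚ[T;T⁻¹] := T 3 + T (-3) - 2

lemma Lam_ext {f g : ℚ[T;T⁻¹] →ₗ[ℚ] ℚ} (h : ∀ e : ℤ, f (T e) = g (T e)) : f = g := by
  refine LinearMap.ext fun p => ?_
  induction p using LaurentPolynomial.induction_on' with
  | add p q hp hq => rw [map_add, map_add, hp, hq]
  | C_mul_T n a => rw [← smul_eq_C_mul, map_smul, map_smul, h]

lemma Lam_Y_T (N : ℕ) (e : ℤ) :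
    Lam N (Yc * T e) = lamh N ((e : ℚ) + 3) + lamh N ((e : ℚ) - 3) - 2 * lamh N e := by
  have h : Yc * T e = T (e + 3) + T (e - 3) - (2 : ℚ) • T e := by
    unfold Yc
    rw [sub_mul, add_mul, ← T_add, ← T_add, add_comm 3 e, add_comm (-3) e, ← sub_eq_add_neg]
    congr 1
    rw [smul_eq_C_mul]
    rfl
  rw [h, map_sub, map_add, map_smul, Lam_T, Lam_T, Lam_T]
  push_cast
  rfl

theorem Lam_Y (N : ℕ) (p : ℚ[T;T⁻¹]) :
    Lam (N + 2) (Yc * p) =
      9 * (N + 1) * (N + 2) * kap N * Lam N p + 18 * (2 * N + 5) * (N + 2) * Lam (N + 1) p := by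
  have h : (Lam (N + 2)) ∘ₗ (LinearMap.mulLeft ℚ Yc) =
      (9 * (N + 1) * (N + 2) * kap N) • Lam N + (18 * (2 * N + 5) * (N + 2) : ℚ) • Lam (N + 1) := by
    refine Lam_ext fun e => ?_
    rw [LinearMap.comp_apply, LinearMap.mulLeft_apply, Lam_Y_T, lamh_dual, LinearMap.add_apply,
      LinearMap.smul_apply, LinearMap.smul_apply, Lam_T, Lam_T]
    simp only [smul_eq_mul]
  have h2 := LinearMap.congr_fun h p
  rw [LinearMap.comp_apply, LinearMap.mulLeft_apply, LinearMap.add_apply,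
      LinearMap.smul_apply, LinearMap.smul_apply] at h2
  simpa only [smul_eq_mul] using h2

theorem Lam_Y_one (p : ℚ[T;T⁻¹]) : Lam 1 (Yc * p) = 54 * Lam 0 p := by
  have h : (Lam 1) ∘ₗ (LinearMap.mulLeft ℚ Yc) = (54 : ℚ) • Lam 0 := by
    refine Lam_ext fun e => ?_
    rw [LinearMap.comp_apply, LinearMap.mulLeft_apply, Lam_Y_T, lamh_dual_one,
      LinearMap.smul_apply, Lam_T]
    simp only [smul_eq_mul]
  have h2 := LinearMap.congr_fun h p
  rw [LinearMap.comp_apply, LinearMap.mulLeft_apply, LinearMap.smul_apply] at h2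
  simpa only [smul_eq_mul] using h2

theorem Lam_Y_zero (p : ℚ[T;T⁻¹]) : Lam 0 (Yc * p) = 0 := by
  have h : (Lam 0) ∘ₗ (LinearMap.mulLeft ℚ Yc) = 0 := by
    refine Lam_ext fun e => ?_
    rw [LinearMap.comp_apply, LinearMap.mulLeft_apply, Lam_Y_T, lamh_dual_zero,
      LinearMap.zero_apply]
  have h2 := LinearMap.congr_fun h p
  rwa [LinearMap.comp_apply, LinearMap.mulLeft_apply, LinearMap.zero_apply] at h2

theorem Lam_invert (N : ℕ) (p : ℚ[T;T⁻¹]) : Lam N (invert p) = - Lam N p := by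
  have h : (Lam N) ∘ₗ (invert (R := ℚ)).toLinearMap = -Lam N := by
    refine Lam_ext fun e => ?_
    rw [LinearMap.comp_apply, LinearMap.neg_apply, AlgEquiv.toLinearMap_apply, invert_T, Lam_T,
      Lam_T]
    push_cast
    exact lamh_neg N e
  have h2 := LinearMap.congr_fun h p
  rwa [LinearMap.comp_apply, LinearMap.neg_apply, AlgEquiv.toLinearMap_apply] at h2

/-- supports in `3ℤ + r`, between `3 lo + r` and `3 hi + r` -/
def Sp (lo hi r : ℤ) (p : ℚ[T;T⁻¹]) : Prop :=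
  ∀ e : ℤ, p.coeff e ≠ 0 → ∃ k : ℤ, e = 3 * k + r ∧ lo ≤ k ∧ k ≤ hi

lemma Sp.add {lo hi r : ℤ} {p q : ℚ[T;T⁻¹]} (hp : Sp lo hi r p) (hq : Sp lo hi r q) :
    Sp lo hi r (p + q) := by
  intro e he
  by_cases h : p.coeff e = 0
  · refine hq e fun h' => he ?_
    rw [AddMonoidAlgebra.coeff_add, Finsupp.add_apply, h, h', add_zero]
  · exact hp e h

lemma Sp.neg {lo hi r : ℤ} {p : ℚ[T;T⁻¹]} (hp : Sp lo hi r p) : Sp lo hi r (-p) := by
  intro e he
  refine hp e fun h' => he ?_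
  rw [AddMonoidAlgebra.coeff_neg, Finsupp.neg_apply, h', neg_zero]

lemma Sp.sub {lo hi r : ℤ} {p q : ℚ[T;T⁻¹]} (hp : Sp lo hi r p) (hq : Sp lo hi r q) :
    Sp lo hi r (p - q) := by
  rw [sub_eq_add_neg]
  exact hp.add hq.neg

lemma Sp.smul {lo hi r : ℤ} {p : ℚ[T;T⁻¹]} (c : ℚ) (hp : Sp lo hi r p) : Sp lo hi r (c • p) := by
  intro e he
  refine hp e fun h' => he ?_
  rw [AddMonoidAlgebra.coeff_smul, Finsupp.smul_apply, h', smul_zero]

lemma Sp.mono {lo hi lo' hi' r : ℤ} {p : ℚ[T;T⁻¹]} (hp : Sp lo hi r p) (h1 : lo' ≤ lo)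
    (h2 : hi ≤ hi') : Sp lo' hi' r p := by
  intro e he
  obtain ⟨k, hk, h3, h4⟩ := hp e he
  exact ⟨k, hk, by omega, by omega⟩

lemma Sp_T (k r : ℤ) : Sp k k r (T (3 * k + r)) := by
  intro e he
  rw [T_apply] at he
  refine ⟨k, ?_, le_rfl, le_rfl⟩
  by_contra h
  exact he (if_neg (fun h' => h h'.symm))

lemma Sp.mul {lo hi lo' hi' r r' : ℤ} {p q : ℚ[T;T⁻¹]} (hp : Sp lo hi r p)
    (hq : Sp lo' hi' r' q) : Sp (lo + lo') (hi + hi') (r + r') (p * q) := by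
  classical
  intro e he
  have h1 : e ∈ (p * q).coeff.support := Finsupp.mem_support_iff.2 he
  have h2 := (AddMonoidAlgebra.support_coeff_mul_subset p q) h1
  obtain ⟨a, ha, b, hb, rfl⟩ := Finset.mem_add.1 h2
  obtain ⟨k, hk, h3, h4⟩ := hp a (Finsupp.mem_support_iff.1 ha)
  obtain ⟨l, hl, h5, h6⟩ := hq b (Finsupp.mem_support_iff.1 hb)
  exact ⟨k + l, by rw [hk, hl]; ring, by omega, by omega⟩

lemma Sp_Y : Sp (-1) 1 0 Yc := by
  unfold Yc
  refine Sp.sub (Sp.add ?_ ?_) ?_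
  · exact (Sp_T 1 0).mono (by norm_num) (by norm_num)
  · have h := Sp_T (-1) 0
    norm_num at h
    exact h.mono (le_refl _) (by norm_num)
  · have : (2 : ℚ[T;T⁻¹]) = (2 : ℚ) • T (3 * 0 + 0) := by
      rw [smul_eq_C_mul, mul_zero, add_zero, T_zero, mul_one]
      rfl
    rw [this]
    exact ((Sp_T 0 0).smul 2).mono (by norm_num) (by norm_num)

lemma Lam_of_Sp {N : ℕ} {lo hi : ℤ} {p : ℚ[T;T⁻¹]} (hp : Sp lo hi 2 p)
    (h1 : -((N + 1) / 2 : ℕ) ≤ lo) (h2 : hi + 1 ≤ (N / 2 : ℕ)) : Lam N p = 0 := by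
  unfold Lam
  rw [LinearMap.comp_apply]
  rw [Finsupp.linearCombination_apply, Finsupp.sum]
  refine sum_eq_zero fun e he => ?_
  obtain ⟨k, hk, h3, h4⟩ := hp e (Finsupp.mem_support_iff.1 he)
  rw [hk, lamh_kill (by omega) (by omega), smul_zero]

end Pool.Agent.H68.SlitH
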