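import Pool.Agent.H68.Slit.HSum

set_option autoImplicit false

/-!
# Homogeneous reduction of the slit strip law: `ell m a b = 2 law a b - 1` (MP_fe58d8_pr)
-/

namespace Pool.Agent.H68.SlitH

open Finset LaurentPolynomial
open Pool.Agent.H59.Slit (rp cc ke ell law)

/-- the normalisation of `Lam` -/
def KK (m : ℕ) : ℚ := (3 * m + 1) * 3 ^ (4 * m) * (2 * m).factorial * rp (2 / 3) (2 * m)

lemma KK_pos (m : ℕ) : 0 < KK m := by
  have := rp_pos (x := 2 / 3) (by norm_num) (2 * m)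
  unfold KK
  positivity

lemma RR_eq (m : ℕ) (s : ℚ) :
    RR m s = ∏ j ∈ range m, ((s ^ 2 - (3 * j + 1) ^ 2) * (s ^ 2 - (3 * j + 2) ^ 2)) := by
  induction m with
  | zero => simp [RR]
  | succ m ih => rw [RR_succ, prod_range_succ, ih]; ring

lemma lamh_Lam (m : ℕ) (s : ℚ) : lamh (2 * m) s = KK m * Pool.Agent.H59.Slit.Lam m s := by
  rw [lamh_even, RR_eq]
  unfold Pool.Agent.H59.Slit.Lam
  have h := rp_ne (x := 2 / 3) (by norm_num) (2 * m)
  unfold KK
  field_simp

/-- `RR m (3m+1)` is the normalisation -/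
lemma lamh_top (m : ℕ) : lamh (2 * m) (3 * m + 1) = KK m := by
  rw [lamh_even]
  unfold KK
  induction m with
  | zero => simp [RR, rp_zero]
  | succ m ih =>
    have h := RR_shift m (3 * m + 1)
    have e1 : (3 * ((m + 1 : ℕ) : ℚ) + 1) = 3 * m + 1 + 3 := by push_cast; ring
    have e2 : RR m (3 * m + 1) = 3 ^ (4 * m) * (2 * m).factorial * rp (2 / 3) (2 * m) := by
      have h3 : (3 * (m : ℚ) + 1) ≠ 0 := by positivity
      refine mul_left_cancel₀ h3 ?_
      rw [ih]
      ring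
    rw [e1, h, e2, show 2 * (m + 1) = 2 * m + 1 + 1 by ring, Nat.factorial_succ, Nat.factorial_succ,
      rp_succ, rp_succ, show 4 * (m + 1) = 4 * m + 4 by ring, pow_add]
    push_cast
    ring

lemma cc_odd_zero {a : ℕ} (ha : a % 2 = 1) : cc a 0 = -1 := by
  unfold cc
  rw [if_pos ha, rp_zero, Nat.sub_zero]
  have h1 := rp_ne (x := 4 / 3) (by norm_num) a
  have h2 : (a.factorial : ℚ) ≠ 0 := by positivity
  rw [Nat.factorial_zero]
  push_cast
  field_simp

/-- the product `H1 H1` in the critical case -/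
lemma Lam_H1H1_crit (p r : ℕ) : Lam (2 * (p + r + 1)) (H1 (2 * p + 1) * H1 (2 * r + 1)) =
    -(nn (2 * p + 1) * nn (2 * r + 1) * KK (p + r + 1)) := by
  rw [Lam_H1H1, sum_eq_single 0, sum_eq_single 0]
  · rw [cc_odd_zero (by omega), cc_odd_zero (by omega), ke_odd, ke_odd, ← lamh_top]
    have : (((3 * (((0 : ℕ) : ℤ) - p - 1) + 1 + (3 * (((0 : ℕ) : ℤ) - r - 1) + 1) : ℤ)) : ℚ) =
        -(3 * ((p + r + 1 : ℕ) : ℚ) + 1) := by push_cast; ring
    rw [this, lamh_neg]
    ring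
  · intro j hj hj0
    have := mem_range.1 hj
    rw [ke_odd, ke_odd, show (3 * (((0 : ℕ) : ℤ) - p - 1) + 1 + (3 * ((j : ℤ) - r - 1) + 1) : ℤ) =
      3 * ((j : ℤ) - p - r - 2) + 2 by push_cast; ring, lamh_kill (by omega) (by omega), mul_zero]
  · intro h
    exact absurd (mem_range.2 (by omega)) h
  · intro i hi hi0
    refine sum_eq_zero fun j hj => ?_
    have h1 := mem_range.1 hj
    have h2 := mem_range.1 hi
    rw [ke_odd, ke_odd, show (3 * ((i : ℤ) - p - 1) + 1 + (3 * ((j : ℤ) - r - 1) + 1) : ℤ) =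
      3 * ((i : ℤ) + j - p - r - 2) + 2 by ring, lamh_kill (by omega) (by omega), mul_zero]
  · intro h
    exact absurd (mem_range.2 (by omega)) h

lemma UU_Lam (a b : ℕ) : UU a b * (((a + b).factorial : ℚ)) ^ 2 =
    -2 * Lam (a + b) (H1 a * H2 b) + 2 * Lam (a + b) (H1 a * H1 b) := by
  have hf : (((a + b).factorial : ℚ)) ^ 2 ≠ 0 := by positivity
  have h1 := Lamc_H2H1 (a + b) a b
  unfold UU
  rw [MM_eq]
  unfold WP
  rw [Lamc_sub, h1]
  unfold Lamc
  field_simp
  ring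

theorem UU_ell {a b m : ℕ} (ha : a % 2 = 1) (hb : b % 2 = 1) (hm : a + b = 2 * m) :
    UU a b * (((a + b).factorial : ℚ)) ^ 2 = 2 * nn a * nn b * KK m * (ell m a b - 1) := by
  obtain ⟨p, rfl⟩ : ∃ p, a = 2 * p + 1 := ⟨a / 2, by omega⟩
  obtain ⟨r, rfl⟩ : ∃ r, b = 2 * r + 1 := ⟨b / 2, by omega⟩
  have hm' : m = p + r + 1 := by omega
  subst hm'
  rw [UU_Lam, hm, Lam_H1H1_crit, Lam_H1H2]
  have h : (∑ i ∈ range (2 * p + 1 + 1), ∑ j ∈ range (2 * r + 1 + 1),
      cc (2 * p + 1) i * cc (2 * r + 1) j *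
        lamh (2 * (p + r + 1)) ((ke (2 * p + 1) i - ke (2 * r + 1) j : ℤ) : ℚ)) =
      KK (p + r + 1) * ell (p + r + 1) (2 * p + 1) (2 * r + 1) := by
    unfold ell
    rw [mul_sum]
    refine sum_congr rfl fun i _ => ?_
    rw [mul_sum]
    refine sum_congr rfl fun j _ => ?_
    rw [lamh_Lam]
    ring
  rw [h]
  ring

lemma nn_succ_succ {a : ℕ} (ha : a % 2 = 1) :
    9 * kap a * nn (a + 2) = (a + 2) * (a + 3) * nn a := by
  obtain ⟨p, rfl⟩ : ∃ p, a = 2 * p + 1 := ⟨a / 2, by omega⟩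
  rw [kap_odd]
  unfold nn
  rw [if_pos (by omega), if_pos (by omega), Nat.factorial_succ (2 * p + 1 + 2),
    Nat.factorial_succ (2 * p + 1 + 1), show 2 * p + 1 + 2 = 2 * p + 1 + 1 + 1 by ring, rp_succ,
    rp_succ, pow_succ, pow_succ]
  have h1 := rp_ne (x := 4 / 3) (by norm_num) (2 * p + 1)
  have h2 : (4 / 3 + ((2 * p + 1 : ℕ) : ℚ)) ≠ 0 := by positivity
  have h3 : (4 / 3 + ((2 * p + 1 + 1 : ℕ) : ℚ)) ≠ 0 := by positivity
  push_cast at h2 h3 ⊢
  field_simp
  ring

/-- the increment of `ell` along an antidiagonal -/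
theorem ell_diff {a b m : ℕ} (ha : a % 2 = 1) (hb : b % 2 = 1) (hm : a + b = 2 * m) :
    ell (m + 1) (a + 2) b - ell (m + 1) a (b + 2) =
      (((2 * m + 2).factorial : ℚ)) ^ 2 * 36 / (nn a * nn b * KK (m + 1)) *
        ((2 * b + 3) * (2 * a + b + 4) / (b + 2) + (2 * a + 3) * (a + 2 * b + 4) / (a + 2)) := by
  have hS : a + 2 + b = 2 * (m + 1) := by omega
  have hS' : a + (b + 2) = 2 * (m + 1) := by omega
  have u1 := UU_ell (a := a + 2) (b := b) (m := m + 1) (by omega) hb hS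
  have u2 := UU_ell (a := a) (b := b + 2) (m := m + 1) ha (by omega) hS'
  have va := UU_a a b
  have vb := UU_b a b
  have q1 : QQ (a + 1) b = -(4 * (a + 2 * b + 4)) := by
    rw [QQ_eq (by omega)]
    unfold qst
    rw [if_pos (by omega)]
    push_cast
    ring
  have q2 : QQ a (b + 1) = 4 * (2 * a + b + 4) := by
    rw [QQ_eq (by omega)]
    unfold qst
    rw [if_neg (by omega), if_pos (by omega)]
    push_cast
    ring
  rw [q1] at va
  rw [q2] at vb
  have n1 := nn_succ_succ ha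
  have n2 := nn_succ_succ hb
  rw [show a + 2 + b = 2 * m + 2 by omega] at u1
  rw [show a + (b + 2) = 2 * m + 2 by omega] at u2
  generalize kap (a + b) / (((a : ℚ) + b + 2) * (a + b + 1)) * UU a b +
    2 * (2 * ((a : ℚ) + b) + 5) / (a + b + 2) * QQ a b = R at va vb
  have hF : (((2 * m + 2).factorial : ℚ)) ^ 2 ≠ 0 := by positivity
  generalize (((2 * m + 2).factorial : ℚ)) ^ 2 = F at *
  have hK := (KK_pos (m + 1)).ne'
  have hna := (nn_pos a).ne'
  have hnb := (nn_pos b).ne'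
  have hka := kap_ne a
  have hkb := kap_ne b
  have e1 : UU (a + 2) b = ((a + 2) * (a + 3) * R + 8 * (2 * a + 3) * (a + 3) * (a + 2 * b + 4)) /
      kap a := by
    rw [eq_div_iff hka]
    linear_combination va
  have e2 : UU a (b + 2) = ((b + 2) * (b + 3) * R - 8 * (2 * b + 3) * (b + 3) * (2 * a + b + 4)) /
      kap b := by
    rw [eq_div_iff hkb]
    linear_combination vb
  have e3 : nn (a + 2) = (a + 2) * (a + 3) * nn a / (9 * kap a) := by
    rw [eq_div_iff (by positivity)]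
    linear_combination n1
  have e4 : nn (b + 2) = (b + 2) * (b + 3) * nn b / (9 * kap b) := by
    rw [eq_div_iff (by positivity)]
    linear_combination n2
  have d1 : (a : ℚ) + 2 ≠ 0 := by positivity
  have d2 : (a : ℚ) + 3 ≠ 0 := by positivity
  have d3 : (b : ℚ) + 2 ≠ 0 := by positivity
  have d4 : (b : ℚ) + 3 ≠ 0 := by positivity
  rw [e1, e3] at u1
  rw [e2, e4] at u2
  have g1 : ell (m + 1) (a + 2) b = 1 + F * 9 / (2 * nn a * nn b * KK (m + 1)) *
      (R + 8 * (2 * a + 3) * (a + 2 * b + 4) / (a + 2)) := by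
    field_simp at u1 ⊢
    linear_combination -u1
  have g2 : ell (m + 1) a (b + 2) = 1 + F * 9 / (2 * nn a * nn b * KK (m + 1)) *
      (R - 8 * (2 * b + 3) * (2 * a + b + 4) / (b + 2)) := by
    field_simp at u2 ⊢
    linear_combination -u2
  rw [g1, g2]
  field_simp
  ring

/-! ### the law -/

/-- the terms of `law` -/
def tt (n k : ℕ) : ℚ := rp (1 / 3) k * rp (1 / 3) (n - k) / (k.factorial * (n - k).factorial)

lemma law_def (a b : ℕ) : law a b = (∑ k ∈ range (a + 1), tt (a + b + 1) k) *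
    (a + b + 1).factorial / rp (2 / 3) (a + b + 1) := rfl

/-- Vandermonde, in the form `(x+y)_n = ∑ binom n k (x)_k (y)_{n-k}` -/
lemma rp_add (x y : ℚ) (n : ℕ) : rp (x + y) n =
    ∑ k ∈ range (n + 1), (n.choose k : ℚ) * rp x k * rp y (n - k) := by
  induction n generalizing x y with
  | zero => simp [rp_zero]
  | succ n ih =>
    have h1 : rp (x + y) (n + 1) =
        ∑ k ∈ range (n + 1), ((n.choose k : ℚ) * rp x (k + 1) * rp y (n - k) +
          (n.choose k : ℚ) * rp x k * rp y (n - k + 1)) := by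
      rw [rp_succ, ih x y, sum_mul]
      refine sum_congr rfl fun k hk => ?_
      have hk' : k ≤ n := Nat.lt_succ_iff.1 (mem_range.1 hk)
      rw [rp_succ, rp_succ]
      have : ((n - k : ℕ) : ℚ) = n - k := by push_cast [Nat.cast_sub hk']; ring
      rw [this]
      ring
    rw [h1, sum_add_distrib]
    rw [sum_range_succ' (fun k => ((n + 1).choose k : ℚ) * rp x k * rp y (n + 1 - k))]
    have h2 : ∑ k ∈ range (n + 1), ((n + 1).choose (k + 1) : ℚ) * rp x (k + 1) *
        rp y (n + 1 - (k + 1)) =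
        ∑ k ∈ range (n + 1), (n.choose k : ℚ) * rp x (k + 1) * rp y (n - k) +
        ∑ k ∈ range (n + 1), (n.choose (k + 1) : ℚ) * rp x (k + 1) * rp y (n - k) := by
      rw [← sum_add_distrib]
      refine sum_congr rfl fun k _ => ?_
      rw [Nat.choose_succ_succ, Nat.add_sub_add_right]
      push_cast
      ring
    rw [h2, add_assoc]
    congr 1
    rw [sum_range_succ' (fun k => (n.choose k : ℚ) * rp x k * rp y (n - k + 1)), sum_range_succ]
    rw [Nat.choose_succ_self]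
    push_cast
    rw [zero_mul, zero_mul, add_zero]
    congr 1
    · refine sum_congr rfl fun k hk => ?_
      have hk' := mem_range.1 hk
      rw [show n - (k + 1) + 1 = n - k by omega]
    · simp

lemma tt_symm {n k : ℕ} (hk : k ≤ n) : tt n (n - k) = tt n k := by
  unfold tt
  rw [Nat.sub_sub_self hk]
  ring

lemma sum_tt (n : ℕ) : (∑ k ∈ range (n + 1), tt n k) * n.factorial = rp (2 / 3) n := by
  have h := rp_add (1 / 3) (1 / 3) n
  rw [show (1 / 3 + 1 / 3 : ℚ) = 2 / 3 by norm_num] at h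
  rw [h, sum_mul]
  refine sum_congr rfl fun k hk => ?_
  have hk' : k ≤ n := Nat.lt_succ_iff.1 (mem_range.1 hk)
  unfold tt
  rw [Nat.cast_choose ℚ hk']
  have h1 : (k.factorial : ℚ) ≠ 0 := by positivity
  have h2 : ((n - k).factorial : ℚ) ≠ 0 := by positivity
  field_simp

theorem law_symm (a b : ℕ) : law a b + law b a = 1 := by
  have h1 := sum_tt (a + b + 1)
  have h2 : ∑ k ∈ range (b + 1), tt (a + b + 1) k =
      ∑ k ∈ Ico (a + 1) (a + b + 2), tt (a + b + 1) k := by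
    have h := Finset.sum_Ico_reflect (fun k => tt (a + b + 1) k) 0 (m := b + 1) (n := a + b + 1)
      (by omega)
    rw [show a + b + 1 + 1 - (b + 1) = a + 1 by omega, show a + b + 1 + 1 - 0 = a + b + 2 by omega]
      at h
    rw [range_eq_Ico, ← h]
    refine sum_congr rfl fun k hk => ?_
    have := mem_Ico.1 hk
    exact (tt_symm (by omega)).symm
  have h3 : ∑ k ∈ range (a + 1), tt (a + b + 1) k + ∑ k ∈ range (b + 1), tt (a + b + 1) k =
      ∑ k ∈ range (a + b + 1 + 1), tt (a + b + 1) k := by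
    rw [h2, show a + b + 1 + 1 = a + b + 2 by ring]
    exact Finset.sum_range_add_sum_Ico _ (by omega)
  have h4 := rp_ne (x := 2 / 3) (by norm_num) (a + b + 1)
  rw [law_def, law_def, show b + a + 1 = a + b + 1 by ring, ← add_div, ← add_mul, h3, h1,
    div_self h4]

lemma law_step' (a b : ℕ) : law (a + 1) b - law a (b + 1) =
    tt (a + b + 2) (a + 1) * (a + b + 2).factorial / rp (2 / 3) (a + b + 2) := by
  rw [law_def, law_def, show a + 1 + b + 1 = a + b + 2 by ring,
    show a + (b + 1) + 1 = a + b + 2 by ring, sum_range_succ _ (a + 1)]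
  ring

theorem law_step (a b : ℕ) :
    law (a + 1) b - law a (b + 1) =
      1 / 5 * (rp (4 / 3) a / rp 2 a) * (rp (4 / 3) b / rp 2 b) *
        (rp 3 (a + b) / rp (8 / 3) (a + b)) := by
  rw [law_step']
  unfold tt
  rw [show a + b + 2 - (a + 1) = b + 1 by omega, rp_shift (1 / 3) a, rp_shift (1 / 3) b,
    rp_shift (2 / 3) (a + b + 1), rp_shift (2 / 3 + 1) (a + b)]
  norm_num
  have h2 : ∀ n : ℕ, rp 2 n = (n + 1).factorial := by
    intro n
    induction n with
    | zero => simp [rp_zero]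
    | succ n ih => rw [rp_succ, ih, Nat.factorial_succ (n + 1)]; push_cast; ring
  have h3 : ∀ n : ℕ, rp 3 n = (n + 2).factorial / 2 := by
    intro n
    induction n with
    | zero => simp [rp_zero, Nat.factorial]
    | succ n ih => rw [rp_succ, ih, show n + 1 + 2 = n + 2 + 1 by ring, Nat.factorial_succ (n + 2)]; push_cast; ring
  rw [h2, h2, h3]
  have a1 : ((a + 1).factorial : ℚ) ≠ 0 := by positivity
  have a2 : ((b + 1).factorial : ℚ) ≠ 0 := by positivity
  have a3 := rp_ne (x := 8 / 3) (by norm_num) (a + b)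
  field_simp

theorem law_zero (b : ℕ) : law 0 b = 1 / 2 * (rp (4 / 3) b / rp (5 / 3) b) := by
  rw [law_def, zero_add, zero_add, sum_range_one]
  unfold tt
  rw [rp_zero, Nat.sub_zero, rp_shift (1 / 3) b, rp_shift (2 / 3) b]
  norm_num
  have a1 : ((b + 1).factorial : ℚ) ≠ 0 := by positivity
  have a3 := rp_ne (x := 5 / 3) (by norm_num) b
  field_simp

theorem ell_antisymm (m a b : ℕ) : ell m b a = -ell m a b := by
  unfold ell
  rw [sum_comm, ← sum_neg_distrib]
  refine sum_congr rfl fun i _ => ?_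
  rw [← sum_neg_distrib]
  refine sum_congr rfl fun j _ => ?_
  have h : Pool.Agent.H59.Slit.Lam m ((ke b j - ke a i : ℤ) : ℚ) =
      - Pool.Agent.H59.Slit.Lam m ((ke a i - ke b j : ℤ) : ℚ) := by
    have h1 := lamh_Lam m ((ke b j - ke a i : ℤ) : ℚ)
    have h2 := lamh_Lam m ((ke a i - ke b j : ℤ) : ℚ)
    have h3 : (((ke b j - ke a i : ℤ)) : ℚ) = -((ke a i - ke b j : ℤ) : ℚ) := by push_cast; ring
    rw [h3, lamh_neg, h2, ← h3] at h1
    have hK := (KK_pos m).ne'
    refine mul_left_cancel₀ hK ?_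
    linear_combination -h1
  rw [h]
  ring

/-- the increments agree -/
lemma incr_eq {a b m : ℕ} (ha : a % 2 = 1) (hb : b % 2 = 1) (hm : a + b = 2 * m) :
    ell (m + 1) (a + 2) b - ell (m + 1) a (b + 2) = 2 * (law (a + 2) b - law a (b + 2)) := by
  have h1 := law_step' (a + 1) b
  have h2 := law_step' a (b + 1)
  have h3 : law (a + 2) b - law a (b + 2) =
      (tt (a + b + 3) (a + 2) + tt (a + b + 3) (a + 1)) * (a + b + 3).factorial /
        rp (2 / 3) (a + b + 3) := by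
    rw [show a + 1 + b + 2 = a + b + 3 by ring, show a + 1 + 1 = a + 2 by ring] at h1
    rw [show a + (b + 1) + 2 = a + b + 3 by ring, show b + 1 + 1 = b + 2 by ring] at h2
    linear_combination h1 + h2
  rw [ell_diff ha hb hm, h3]
  unfold tt
  rw [show a + b + 3 - (a + 2) = b + 1 by omega, show a + b + 3 - (a + 1) = b + 2 by omega]
  rw [show a + 2 = a + 1 + 1 by ring, show b + 2 = b + 1 + 1 by ring]
  rw [rp_shift (1 / 3) (a + 1), rp_shift (1 / 3) (b + 1), rp_shift (1 / 3) a, rp_shift (1 / 3) b]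
  norm_num
  rw [rp_succ (4 / 3) a, rp_succ (4 / 3) b, Nat.factorial_succ (a + 1), Nat.factorial_succ (b + 1)]
  rw [hm, rp_succ (2 / 3) (2 * m + 2), Nat.factorial_succ (2 * m + 2)]
  unfold nn KK
  rw [if_pos ha, if_pos hb, show 2 * (m + 1) = 2 * m + 2 by ring]
  have hp : (9 : ℚ) ^ a * 9 ^ b = 3 ^ (4 * m) := by
    rw [← pow_add, hm, show (9 : ℚ) = 3 ^ 2 by norm_num, ← pow_mul]
    congr 1
    ring
  have hA := rp_ne (x := 4 / 3) (by norm_num) a
  have hB := rp_ne (x := 4 / 3) (by norm_num) b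
  have hC := rp_ne (x := 2 / 3) (by norm_num) (2 * m + 2)
  have f1 : ((a + 1).factorial : ℚ) ≠ 0 := by positivity
  have f2 : ((b + 1).factorial : ℚ) ≠ 0 := by positivity
  have f3 : ((2 * m + 2).factorial : ℚ) ≠ 0 := by positivity
  have d1 : (a : ℚ) + 2 ≠ 0 := by positivity
  have d2 : (b : ℚ) + 2 ≠ 0 := by positivity
  have hbm : (m : ℚ) = (a + b) / 2 := by
    have : ((a + b : ℕ) : ℚ) = ((2 * m : ℕ) : ℚ) := by rw [hm]
    push_cast at this
    linarith
  have d3 : 3 * (m : ℚ) + 4 ≠ 0 := by positivity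
  have d4 : 6 * (m : ℚ) + 8 ≠ 0 := by positivity
  have hlhs : (((2 * m + 2).factorial : ℚ)) ^ 2 * 36 /
      (2 * ((a + 1).factorial : ℚ) / (9 ^ a * rp (4 / 3) a) *
        (2 * ((b + 1).factorial : ℚ) / (9 ^ b * rp (4 / 3) b)) *
        ((3 * ((m + 1 : ℕ) : ℚ) + 1) * 3 ^ (4 * (m + 1)) * ((2 * m + 2).factorial : ℚ) *
          rp (2 / 3) (2 * m + 2))) =
      ((2 * m + 2).factorial : ℚ) * rp (4 / 3) a * rp (4 / 3) b /
        (9 * (3 * m + 4) * ((a + 1).factorial : ℚ) * ((b + 1).factorial : ℚ) *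
          rp (2 / 3) (2 * m + 2)) := by
    have : (3 : ℚ) ^ (4 * (m + 1)) = 81 * (9 ^ a * 9 ^ b) := by
      rw [hp, show 4 * (m + 1) = 4 * m + 4 by ring, pow_add]; ring
    rw [this]
    push_cast
    have d5 : 3 * ((m : ℚ) + 1) + 1 ≠ 0 := by positivity
    have d6 : (9 : ℚ) ^ a ≠ 0 := by positivity
    have d7 : (9 : ℚ) ^ b ≠ 0 := by positivity
    field_simp
    ring
  rw [hlhs]
  push_cast
  have d8 : (2 / 3 + (2 * (m : ℚ) + 2)) ≠ 0 := by positivity
  have d9 : (a : ℚ) + 1 + 1 ≠ 0 := by positivity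
  have d10 : (b : ℚ) + 1 + 1 ≠ 0 := by positivity
  generalize rp (2 / 3) (2 * m + 2) = R at *
  generalize ((2 * m + 2).factorial : ℚ) = F at *
  rw [hbm] at d3 d8 ⊢
  have d11 : 3 * ((a : ℚ) + b) + 8 ≠ 0 := by positivity
  rw [show 3 * (((a : ℚ) + b) / 2) + 4 = (3 * (a + b) + 8) / 2 by ring,
    show 2 / 3 + (2 * (((a : ℚ) + b) / 2) + 2) = (3 * (a + b) + 8) / 3 by ring,
    show (a : ℚ) + 1 + 1 = a + 2 by ring, show (b : ℚ) + 1 + 1 = b + 2 by ring]
  field_simp
  ring

theorem ell_eq (a b m : ℕ) (ha : a % 2 = 1) (hb : b % 2 = 1) (hm : a + b = 2 * m) :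
    ell m a b = 2 * law a b - 1 := by
  have key : ∀ k : ℕ, ∀ b m : ℕ, b % 2 = 1 → (2 * k + 1) + b = 2 * m →
      ell m (2 * k + 1) b - (2 * law (2 * k + 1) b - 1) =
        ell m 1 (2 * m - 1) - (2 * law 1 (2 * m - 1) - 1) := by
    intro k
    induction k with
    | zero =>
      intro b m hb hm
      rw [show b = 2 * m - 1 by omega]
    | succ k ih =>
      intro b m hb hm
      obtain ⟨m', rfl⟩ : ∃ m', m = m' + 1 := ⟨m - 1, by omega⟩
      have h1 := incr_eq (a := 2 * k + 1) (b := b) (m := m') (by omega) hb (by omega)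
      have h2 := ih (b + 2) (m' + 1) (by omega) (by omega)
      rw [show 2 * (k + 1) + 1 = 2 * k + 1 + 2 by ring]
      linear_combination h1 + h2
  obtain ⟨p, rfl⟩ : ∃ p, a = 2 * p + 1 := ⟨a / 2, by omega⟩
  obtain ⟨r, rfl⟩ : ∃ r, b = 2 * r + 1 := ⟨b / 2, by omega⟩
  have h1 := key p (2 * r + 1) m (by omega) hm
  have h2 := key r (2 * p + 1) m (by omega) (by omega)
  have h3 := ell_antisymm m (2 * p + 1) (2 * r + 1)
  have h4 := law_symm (2 * p + 1) (2 * r + 1)
  linarith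

end Pool.Agent.H68.SlitH
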