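import Pool.Agent.H68.Slit.Core

set_option autoImplicit false

/-!
# Homogeneous reduction of the slit strip law: the Laurent polynomials `H1`, `H2` and the
bilinear quantities `M N A B` (MP_fe58d8_pr)
-/

namespace Pool.Agent.H68.SlitH

open Finset LaurentPolynomial

noncomputable def H1 : ℕ → ℚ[T;T⁻¹]
  | 0 => T 1
  | 1 => (1 / 3 : ℚ) • (-(T (-2)) - (2 : ℚ) • T 1)
  | (A + 2) => (kap A)⁻¹ • ((((A : ℚ) + 2) * (A + 3) / 9) • (Yc * H1 A) -
      (2 * (2 * (A : ℚ) + 3) * (A + 3)) • H1 (A + 1))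

noncomputable def H2 (A : ℕ) : ℚ[T;T⁻¹] := - invert (H1 A)

noncomputable def FF (A : ℕ) : ℚ[T;T⁻¹] := H1 A + H2 A

noncomputable def GG (A : ℕ) : ℚ[T;T⁻¹] := H1 A - H2 A

lemma H1_rec (A : ℕ) : kap A • H1 (A + 2) =
    (((A : ℚ) + 2) * (A + 3) / 9) • (Yc * H1 A) - (2 * (2 * (A : ℚ) + 3) * (A + 3)) • H1 (A + 1) := by
  rw [H1, smul_smul, mul_inv_cancel₀ (kap_ne A), one_smul]

lemma invert_Yc : invert Yc = Yc := by
  unfold Yc
  rw [map_sub, map_add, invert_T, invert_T, neg_neg, map_ofNat, add_comm]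

lemma H2_rec (A : ℕ) : kap A • H2 (A + 2) =
    (((A : ℚ) + 2) * (A + 3) / 9) • (Yc * H2 A) - (2 * (2 * (A : ℚ) + 3) * (A + 3)) • H2 (A + 1) := by
  have h := congrArg invert (H1_rec A)
  rw [map_smul, map_sub, map_smul, map_smul, map_mul, invert_Yc] at h
  unfold H2
  rw [smul_neg, h, mul_neg, smul_neg, smul_neg]
  abel

lemma FF_rec (A : ℕ) : kap A • FF (A + 2) =
    (((A : ℚ) + 2) * (A + 3) / 9) • (Yc * FF A) - (2 * (2 * (A : ℚ) + 3) * (A + 3)) • FF (A + 1) := by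
  unfold FF
  rw [smul_add, H1_rec, H2_rec, mul_add Yc, smul_add, smul_add]
  abel

lemma GG_rec (A : ℕ) : kap A • GG (A + 2) =
    (((A : ℚ) + 2) * (A + 3) / 9) • (Yc * GG A) - (2 * (2 * (A : ℚ) + 3) * (A + 3)) • GG (A + 1) := by
  unfold GG
  rw [smul_sub, H1_rec, H2_rec, mul_sub Yc, smul_sub, smul_sub]
  abel

lemma Sp_H1 (A : ℕ) : Sp (-((A + 1) / 2 : ℕ)) ((A / 2 : ℕ)) 1 (H1 A) ∧
    Sp (-((A + 1 + 1) / 2 : ℕ)) (((A + 1) / 2 : ℕ)) 1 (H1 (A + 1)) := by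
  induction A with
  | zero =>
    constructor
    · have h := Sp_T 0 1
      norm_num at h
      simpa [H1] using h
    · have h1 := Sp_T 0 1
      norm_num at h1
      have h2 := Sp_T (-1) 1
      norm_num at h2
      have h3 : Sp (-1) 0 1 (H1 1) := by
        rw [H1]
        refine Sp.smul _ (Sp.sub (Sp.neg ?_) (Sp.smul _ ?_))
        · exact h2.mono (le_refl _) (by norm_num)
        · exact h1.mono (by norm_num) (le_refl _)
      simpa using h3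
  | succ A ih =>
    refine ⟨ih.2, ?_⟩
    rw [show A + 1 + 1 = A + 2 by ring, H1]
    refine Sp.smul _ (Sp.sub (Sp.smul _ ?_) (Sp.smul _ ?_))
    · have h := Sp_Y.mul ih.1
      rw [zero_add] at h
      exact h.mono (by omega) (by omega)
    · exact ih.2.mono (by omega) (by omega)

noncomputable def Lamc (N : ℕ) (p : ℚ[T;T⁻¹]) : ℚ := Lam N p / ((N.factorial : ℚ)) ^ 2

lemma Lamc_add (N : ℕ) (p q : ℚ[T;T⁻¹]) : Lamc N (p + q) = Lamc N p + Lamc N q := by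
  unfold Lamc; rw [map_add, add_div]

lemma Lamc_sub (N : ℕ) (p q : ℚ[T;T⁻¹]) : Lamc N (p - q) = Lamc N p - Lamc N q := by
  unfold Lamc; rw [map_sub, sub_div]

lemma Lamc_neg (N : ℕ) (p : ℚ[T;T⁻¹]) : Lamc N (-p) = - Lamc N p := by
  unfold Lamc; rw [map_neg, neg_div]

lemma Lamc_smul (N : ℕ) (c : ℚ) (p : ℚ[T;T⁻¹]) : Lamc N (c • p) = c * Lamc N p := by
  unfold Lamc; rw [map_smul, smul_eq_mul, mul_div_assoc]

lemma Lamc_invert (N : ℕ) (p : ℚ[T;T⁻¹]) : Lamc N (invert p) = - Lamc N p := by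
  unfold Lamc; rw [Lam_invert, neg_div]

lemma Lamc_Y (N : ℕ) (p : ℚ[T;T⁻¹]) : Lamc (N + 2) (Yc * p) =
    9 * (kap N / ((N + 2) * (N + 1)) * Lamc N p + 2 * (2 * N + 5) / (N + 2) * Lamc (N + 1) p) := by
  have hN : (N.factorial : ℚ) ≠ 0 := by positivity
  unfold Lamc
  rw [Lam_Y, Nat.factorial_succ (N + 1), Nat.factorial_succ N]
  push_cast
  have h1 : (N : ℚ) + 1 ≠ 0 := by positivity
  have h2 : (N : ℚ) + 1 + 1 ≠ 0 := by positivity
  have h3 : (N : ℚ) + 2 ≠ 0 := by positivity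
  field_simp
  ring

noncomputable def MM (N A B : ℕ) : ℚ := Lamc N (FF A * GG B)

theorem MM_rec (N A B : ℕ) :
    kap A * MM (N + 2) (A + 2) B + 2 * (2 * A + 3) * (A + 3) * MM (N + 2) (A + 1) B =
      (A + 2) * (A + 3) * (kap N / ((N + 2) * (N + 1)) * MM N A B +
        2 * (2 * N + 5) / (N + 2) * MM (N + 1) A B) := by
  have h := congrArg (fun x => Lamc (N + 2) (x * GG B)) (FF_rec A)
  simp only [smul_mul_assoc, sub_mul, Lamc_sub, Lamc_smul, mul_assoc Yc, Lamc_Y] at h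
  unfold MM
  rw [h]
  ring

theorem MM_rec' (N A B : ℕ) :
    kap B * MM (N + 2) A (B + 2) + 2 * (2 * B + 3) * (B + 3) * MM (N + 2) A (B + 1) =
      (B + 2) * (B + 3) * (kap N / ((N + 2) * (N + 1)) * MM N A B +
        2 * (2 * N + 5) / (N + 2) * MM (N + 1) A B) := by
  have h := congrArg (fun x => Lamc (N + 2) (FF A * x)) (GG_rec B)
  simp only [mul_smul_comm, mul_sub, Lamc_sub, Lamc_smul, mul_left_comm _ Yc, Lamc_Y] at h
  unfold MM
  rw [h]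
  ring

/-- the determinant-like combination -/
noncomputable def WP (A B : ℕ) : ℚ[T;T⁻¹] := H2 A * H1 B - H1 A * H2 B

lemma invert_H1 (A : ℕ) : invert (H1 A) = - H2 A := by unfold H2; rw [neg_neg]

lemma invert_invert (p : ℚ[T;T⁻¹]) : invert (invert p) = p := involutive_invert p

lemma invert_H2 (A : ℕ) : invert (H2 A) = - H1 A := by
  unfold H2; rw [map_neg, invert_invert]

lemma Lamc_H2H2 (N A B : ℕ) : Lamc N (H2 A * H2 B) = - Lamc N (H1 A * H1 B) := by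
  rw [← Lamc_invert, map_mul, invert_H1, invert_H1]
  ring_nf

lemma Lamc_H2H1 (N A B : ℕ) : Lamc N (H2 A * H1 B) = - Lamc N (H1 A * H2 B) := by
  rw [← Lamc_invert, map_mul, invert_H1, invert_H2]
  ring_nf

theorem MM_eq (N A B : ℕ) : MM N A B = Lamc N (WP A B) + 2 * Lamc N (H1 A * H1 B) := by
  unfold MM FF GG WP
  rw [add_mul, mul_sub, mul_sub, Lamc_add, Lamc_sub, Lamc_sub, Lamc_sub, Lamc_H2H2]
  ring

lemma Lamc_WP_swap (N A B : ℕ) : Lamc N (WP B A) = - Lamc N (WP A B) := by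
  rw [← Lamc_neg]
  congr 1
  unfold WP
  ring

theorem MM_symm (N A B : ℕ) : MM N A B + MM N B A = 4 * Lamc N (H1 A * H1 B) := by
  rw [MM_eq, MM_eq, Lamc_WP_swap N A B, mul_comm (H1 B)]
  ring

theorem Lamc_H1H1 {N A B : ℕ} (h1 : (A + 1) / 2 + (B + 1) / 2 ≤ (N + 1) / 2)
    (h2 : A / 2 + B / 2 + 1 ≤ N / 2) : Lamc N (H1 A * H1 B) = 0 := by
  have h := (Sp_H1 A).1.mul (Sp_H1 B).1
  have h3 := Lam_of_Sp (N := N) h (by push_cast; omega) (by push_cast; omega)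
  unfold Lamc
  rw [h3, zero_div]

theorem MM_anti {N A B : ℕ} (h1 : (A + 1) / 2 + (B + 1) / 2 ≤ (N + 1) / 2)
    (h2 : A / 2 + B / 2 + 1 ≤ N / 2) : MM N A B = - MM N B A := by
  have := MM_symm N A B
  rw [Lamc_H1H1 h1 h2] at this
  linarith

theorem MM_WP {N A B : ℕ} (h1 : (A + 1) / 2 + (B + 1) / 2 ≤ (N + 1) / 2)
    (h2 : A / 2 + B / 2 + 1 ≤ N / 2) : MM N A B = Lamc N (WP A B) := by
  rw [MM_eq, Lamc_H1H1 h1 h2]
  ring

end Pool.Agent.H68.SlitH
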