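import Pool.Agent.H68.Slit.Coef

set_option autoImplicit false

/-!
# Homogeneous reduction of the slit strip law: `H1` as an explicit sum (MP_fe58d8_pr)
-/

namespace Pool.Agent.H68.SlitH

open Finset LaurentPolynomial
open Pool.Agent.H59.Slit (rp cc ke ell law)

lemma coeff_T_mul (n e : ℤ) (p : ℚ[T;T⁻¹]) : (T n * p).coeff e = p.coeff (e - n) := by
  have h := AddMonoidAlgebra.coeff_single_mul_apply p 1 n e
  rw [one_mul, neg_add_eq_sub] at h
  exact h

lemma coeff_Y (p : ℚ[T;T⁻¹]) (e : ℤ) :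
    (Yc * p).coeff e = p.coeff (e - 3) + p.coeff (e + 3) - 2 * p.coeff e := by
  have h : Yc * p = T 3 * p + T (-3) * p - (2 : ℚ) • p := by
    unfold Yc
    rw [sub_mul, add_mul]
    congr 1
    rw [smul_eq_C_mul]
    rfl
  rw [h, AddMonoidAlgebra.coeff_sub, Finsupp.sub_apply, AddMonoidAlgebra.coeff_add,
    Finsupp.add_apply, AddMonoidAlgebra.coeff_smul, Finsupp.smul_apply, coeff_T_mul, coeff_T_mul,
    smul_eq_mul, sub_neg_eq_add]

lemma coeff_H1_rec (A : ℕ) (e : ℤ) : kap A * (H1 (A + 2)).coeff e =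
    (((A : ℚ) + 2) * (A + 3) / 9) *
      ((H1 A).coeff (e - 3) + (H1 A).coeff (e + 3) - 2 * (H1 A).coeff e) -
      (2 * (2 * (A : ℚ) + 3) * (A + 3)) * (H1 (A + 1)).coeff e := by
  have h := congrArg (fun p : ℚ[T;T⁻¹] => p.coeff e) (H1_rec A)
  simp only [AddMonoidAlgebra.coeff_sub, Finsupp.sub_apply, AddMonoidAlgebra.coeff_smul,
    Finsupp.smul_apply, smul_eq_mul] at h
  rw [coeff_Y] at h
  exact h

lemma coeff_H1_zero (k : ℤ) : (H1 0).coeff (3 * k + 1) = De 0 k := by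
  rw [H1, T_apply]
  unfold De
  rcases lt_trichotomy k 0 with h | h | h
  · rw [if_neg (by omega), ivf_neg (by push_cast; omega)]
    ring
  · subst h
    rw [if_pos (by norm_num)]
    change (1 : ℚ) = _ * (ivf ((0 : ℕ) : ℤ) * ivf ((0 : ℕ) : ℤ) * irp (5 / 3) ((0 : ℕ) : ℤ) *
      irp (1 / 3) ((0 : ℕ) : ℤ))
    rw [ivf_nat, irp_nat, irp_nat, rp_zero, rp_zero]
    norm_num
  · rw [if_neg (by omega), ivf_neg (n := ((0 : ℕ) : ℤ) - k) (by push_cast; omega)]
    ring

lemma coeff_H1_one (k : ℤ) : (H1 1).coeff (3 * k + 1) = Do 0 k := by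
  rw [H1, AddMonoidAlgebra.coeff_smul, Finsupp.smul_apply, AddMonoidAlgebra.coeff_sub,
    Finsupp.sub_apply, AddMonoidAlgebra.coeff_neg, Finsupp.neg_apply,
    AddMonoidAlgebra.coeff_smul, Finsupp.smul_apply, T_apply, T_apply, smul_eq_mul, smul_eq_mul]
  unfold Do
  by_cases h0 : k = 0
  · subst h0
    rw [if_neg (by norm_num), if_pos (by norm_num)]
    change _ = _ * (ivf ((1 : ℕ) : ℤ) * ivf ((0 : ℕ) : ℤ) * irp (2 / 3) ((1 : ℕ) : ℤ) *
      irp (4 / 3) ((0 : ℕ) : ℤ))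
    rw [ivf_nat, ivf_nat, irp_nat, irp_nat, rp_zero, rp_succ, rp_zero]
    norm_num
  by_cases h1 : k = -1
  · subst h1
    rw [if_pos (by norm_num), if_neg (by norm_num)]
    change _ = _ * (ivf ((0 : ℕ) : ℤ) * ivf ((1 : ℕ) : ℤ) * irp (2 / 3) ((0 : ℕ) : ℤ) *
      irp (4 / 3) ((1 : ℕ) : ℤ))
    rw [ivf_nat, ivf_nat, irp_nat, irp_nat, rp_zero, rp_succ, rp_zero]
    norm_num
  rw [if_neg (by omega), if_neg (by omega)]
  rcases lt_or_ge k 0 with h | h
  · rw [ivf_neg (n := k + ((0 : ℕ) : ℤ) + 1) (by push_cast; omega)]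
    ring
  · rw [ivf_neg (n := ((0 : ℕ) : ℤ) - k) (by push_cast; omega)]
    ring

theorem coeff_H1 (p : ℕ) : (∀ k : ℤ, (H1 (2 * p)).coeff (3 * k + 1) = De p k) ∧
    (∀ k : ℤ, (H1 (2 * p + 1)).coeff (3 * k + 1) = Do p k) := by
  induction p with
  | zero => exact ⟨coeff_H1_zero, coeff_H1_one⟩
  | succ p ih =>
    have h1 : ∀ k : ℤ, (H1 (2 * (p + 1))).coeff (3 * k + 1) = De (p + 1) k := by
      intro k
      have r1 := coeff_H1_rec (2 * p) (3 * k + 1)
      have r2 := De_rec p k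
      rw [show (3 * k + 1 - 3 : ℤ) = 3 * (k - 1) + 1 by ring,
        show (3 * k + 1 + 3 : ℤ) = 3 * (k + 1) + 1 by ring, ih.1, ih.1, ih.1, ih.2, kap_even] at r1
      push_cast at r1
      have hc : (6 * (p : ℚ) + 5) * (6 * p + 8) ≠ 0 := by positivity
      rw [show 2 * (p + 1) = 2 * p + 2 by ring]
      refine mul_left_cancel₀ hc ?_
      linear_combination r1 - r2
    refine ⟨h1, ?_⟩
    intro k
    have r1 := coeff_H1_rec (2 * p + 1) (3 * k + 1)
    have r2 := Do_rec p k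
    rw [show (3 * k + 1 - 3 : ℤ) = 3 * (k - 1) + 1 by ring,
      show (3 * k + 1 + 3 : ℤ) = 3 * (k + 1) + 1 by ring, ih.2, ih.2, ih.2,
      show 2 * p + 1 + 1 = 2 * (p + 1) by ring, h1, kap_odd] at r1
    push_cast at r1
    have hc : (6 * (p : ℚ) + 7) * (6 * p + 10) ≠ 0 := by positivity
    rw [show 2 * (p + 1) + 1 = 2 * p + 1 + 2 by ring]
    refine mul_left_cancel₀ hc ?_
    linear_combination r1 - r2

/-- normalisation constants -/
def nn (A : ℕ) : ℚ :=
  if A % 2 = 1 then 2 * (A + 1).factorial / (9 ^ A * rp (4 / 3) A)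
  else (A + 1).factorial / (9 ^ A * rp (5 / 3) A)

lemma nn_pos (A : ℕ) : 0 < nn A := by
  have h1 := rp_pos (x := 4 / 3) (by norm_num) A
  have h2 := rp_pos (x := 5 / 3) (by norm_num) A
  unfold nn
  split_ifs <;> positivity

lemma De_eq {p n : ℕ} (hn : n ≤ 2 * p) : De p ((n : ℤ) - p) = nn (2 * p) * cc (2 * p) n := by
  unfold De nn cc
  rw [if_neg (by omega), if_neg (by omega)]
  rw [show (n : ℤ) - p + p = (n : ℕ) by ring,
    show (p : ℤ) - ((n : ℤ) - p) = ((2 * p - n : ℕ) : ℤ) by omega, ivf_nat, ivf_nat, irp_nat,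
    irp_nat]
  have h1 := rp_ne (x := 5 / 3) (by norm_num) n
  have h2 := rp_ne (x := 1 / 3) (by norm_num) (2 * p - n)
  have h3 := rp_ne (x := 5 / 3) (by norm_num) (2 * p)
  have h4 : (n.factorial : ℚ) ≠ 0 := by positivity
  have h5 : ((2 * p - n).factorial : ℚ) ≠ 0 := by positivity
  field_simp

lemma Do_eq {p n : ℕ} (hn : n ≤ 2 * p + 1) :
    Do p ((n : ℤ) - p - 1) = nn (2 * p + 1) * cc (2 * p + 1) n := by
  unfold Do nn cc
  rw [if_pos (by omega), if_pos (by omega)]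
  rw [show (n : ℤ) - p - 1 + p + 1 = (n : ℕ) by ring,
    show (p : ℤ) - ((n : ℤ) - p - 1) = ((2 * p + 1 - n : ℕ) : ℤ) by omega, ivf_nat, ivf_nat,
    irp_nat, irp_nat]
  have h1 := rp_ne (x := 2 / 3) (by norm_num) n
  have h2 := rp_ne (x := 4 / 3) (by norm_num) (2 * p + 1 - n)
  have h3 := rp_ne (x := 4 / 3) (by norm_num) (2 * p + 1)
  have h4 : (n.factorial : ℚ) ≠ 0 := by positivity
  have h5 : ((2 * p + 1 - n).factorial : ℚ) ≠ 0 := by positivity
  rw [show 2 * p + 1 + 1 = 2 * p + 2 by ring]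
  field_simp

lemma coeff_sum_T (s : Finset ℕ) (c : ℕ → ℚ) (f : ℕ → ℤ) (e : ℤ) :
    (∑ i ∈ s, c i • (T (f i) : ℚ[T;T⁻¹])).coeff e = ∑ i ∈ s, c i * (if f i = e then 1 else 0) := by
  rw [AddMonoidAlgebra.coeff_sum, Finset.sum_apply']
  refine sum_congr rfl fun i _ => ?_
  rw [AddMonoidAlgebra.coeff_smul, Finsupp.smul_apply, T_apply, smul_eq_mul]

lemma ke_even (p i : ℕ) : ke (2 * p) i = 3 * ((i : ℤ) - p) + 1 := by
  unfold ke
  rw [if_neg (by omega)]
  push_cast
  omega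

lemma ke_odd (p i : ℕ) : ke (2 * p + 1) i = 3 * ((i : ℤ) - p - 1) + 1 := by
  unfold ke
  rw [if_pos (by omega)]
  push_cast
  omega

theorem H1_sum (A : ℕ) : H1 A = ∑ i ∈ range (A + 1), (nn A * cc A i) • T (ke A i) := by
  refine LaurentPolynomial.ext fun e => ?_
  rw [coeff_sum_T]
  by_cases he : ∃ k : ℤ, e = 3 * k + 1
  · obtain ⟨k, rfl⟩ := he
    rcases Nat.even_or_odd' A with ⟨p, rfl | rfl⟩
    · rw [(coeff_H1 p).1 k]
      by_cases hk : 0 ≤ k + p ∧ k ≤ p
      · obtain ⟨n, hn⟩ := Int.eq_ofNat_of_zero_le hk.1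
        have hk' : k = (n : ℤ) - p := by omega
        subst hk'
        rw [De_eq (by omega), sum_eq_single n]
        · rw [ke_even, if_pos rfl, mul_one]
        · intro i _ hi
          rw [ke_even, if_neg (by omega), mul_zero]
        · intro h
          exact absurd (mem_range.2 (by omega)) h
      · have h0 : De p k = 0 := by
          unfold De
          rcases lt_or_ge (k + p) 0 with h | h
          · rw [ivf_neg h]; ring
          · rw [ivf_neg (n := (p : ℤ) - k) (by omega)]; ring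
        rw [h0, sum_eq_zero]
        intro i hi
        have := mem_range.1 hi
        rw [ke_even, if_neg (by omega), mul_zero]
    · rw [(coeff_H1 p).2 k]
      by_cases hk : 0 ≤ k + p + 1 ∧ k ≤ p
      · obtain ⟨n, hn⟩ := Int.eq_ofNat_of_zero_le hk.1
        have hk' : k = (n : ℤ) - p - 1 := by omega
        subst hk'
        rw [Do_eq (by omega), sum_eq_single n]
        · rw [ke_odd, if_pos rfl, mul_one]
        · intro i _ hi
          rw [ke_odd, if_neg (by omega), mul_zero]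
        · intro h
          exact absurd (mem_range.2 (by omega)) h
      · have h0 : Do p k = 0 := by
          unfold Do
          rcases lt_or_ge (k + p + 1) 0 with h | h
          · rw [ivf_neg h]; ring
          · rw [ivf_neg (n := (p : ℤ) - k) (by omega)]; ring
        rw [h0, sum_eq_zero]
        intro i hi
        have := mem_range.1 hi
        rw [ke_odd, if_neg (by omega), mul_zero]
  · have h0 : (H1 A).coeff e = 0 := by
      by_contra h
      obtain ⟨k, hk, -, -⟩ := (Sp_H1 A).1 e h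
      exact he ⟨k, hk⟩
    rw [h0, sum_eq_zero]
    intro i _
    rw [if_neg, mul_zero]
    intro h
    refine he ?_
    rcases Nat.even_or_odd' A with ⟨p, rfl | rfl⟩
    · rw [ke_even] at h; exact ⟨_, h.symm⟩
    · rw [ke_odd] at h; exact ⟨_, h.symm⟩

lemma H2_sum (A : ℕ) : H2 A = -∑ i ∈ range (A + 1), (nn A * cc A i) • T (-ke A i) := by
  unfold H2
  rw [H1_sum, map_sum]
  congr 1
  refine sum_congr rfl fun i _ => ?_
  rw [map_smul, invert_T]

theorem Lam_H1H2 (N A B : ℕ) : Lam N (H1 A * H2 B) =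
    -(nn A * nn B * ∑ i ∈ range (A + 1), ∑ j ∈ range (B + 1),
      cc A i * cc B j * lamh N ((ke A i - ke B j : ℤ) : ℚ)) := by
  rw [H1_sum, H2_sum, mul_neg, map_neg, sum_mul_sum, map_sum, mul_sum]
  congr 1
  refine sum_congr rfl fun i _ => ?_
  rw [map_sum, mul_sum]
  refine sum_congr rfl fun j _ => ?_
  rw [smul_mul_smul_comm, ← T_add, map_smul, Lam_T, ← sub_eq_add_neg, smul_eq_mul]
  ring

theorem Lam_H1H1 (N A B : ℕ) : Lam N (H1 A * H1 B) =
    nn A * nn B * ∑ i ∈ range (A + 1), ∑ j ∈ range (B + 1),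
      cc A i * cc B j * lamh N ((ke A i + ke B j : ℤ) : ℚ) := by
  rw [H1_sum, H1_sum, sum_mul_sum, map_sum, mul_sum]
  refine sum_congr rfl fun i _ => ?_
  rw [map_sum, mul_sum]
  refine sum_congr rfl fun j _ => ?_
  rw [smul_mul_smul_comm, ← T_add, map_smul, Lam_T, smul_eq_mul]
  ring

end Pool.Agent.H68.SlitH
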