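import Pool.Agent.H68.Slit.HH

set_option autoImplicit false

/-!
# Homogeneous reduction of the slit strip law: the values next to the diagonal
(MP_fe58d8_pr)
-/

namespace Pool.Agent.H68.SlitH

open Finset LaurentPolynomial

noncomputable def psi3 : ℚ[T;T⁻¹] := T 3 - T (-3)

noncomputable def mu (N j : ℕ) : ℚ := Lam N (Yc ^ j * psi3)

lemma mu_succ (N j : ℕ) : mu (N + 2) (j + 1) =
    9 * (N + 1) * (N + 2) * kap N * mu N j + 18 * (2 * N + 5) * (N + 2) * mu (N + 1) j := by
  unfold mu
  rw [pow_succ', mul_assoc, Lam_Y]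

lemma mu_one_succ (j : ℕ) : mu 1 (j + 1) = 54 * mu 0 j := by
  unfold mu
  rw [pow_succ', mul_assoc, Lam_Y_one]

lemma mu_zero_succ (j : ℕ) : mu 0 (j + 1) = 0 := by
  unfold mu
  rw [pow_succ', mul_assoc, Lam_Y_zero]

lemma mu_base (N : ℕ) : mu N 0 = 2 * lamh N 3 := by
  unfold mu psi3
  rw [pow_zero, one_mul, map_sub, Lam_T, Lam_T]
  push_cast
  rw [lamh_neg]
  ring

theorem mu_rel (j : ℕ) :
    (∀ m : ℕ, (2 * (m : ℚ) + 1) * (3 * m + 4) * (3 * j + 2 - 3 * m) * mu (2 * m) j =
      (2 * m + 1 - j) * mu (2 * m + 1) j) ∧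
    (∀ m : ℕ, (2 * (m : ℚ) + 2) * (3 * m + 5) * (3 * j + 1 - 3 * m) * mu (2 * m + 1) j =
      (2 * m + 2 - j) * mu (2 * m + 2) j) := by
  induction j with
  | zero =>
    constructor
    · intro m
      rw [mu_base, mu_base, lamh_even, lamh_odd]
      push_cast
      ring
    · intro m
      rw [mu_base, mu_base, show 2 * m + 2 = 2 * (m + 1) by ring, lamh_even, lamh_odd, RR_succ]
      push_cast
      ring
  | succ j ih =>
    obtain ⟨ih1, ih2⟩ := ih
    have hm0 : (j : ℚ) * mu 0 j = 0 := by
      rcases j with _ | j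
      · simp
      · rw [mu_zero_succ, mul_zero]
    constructor
    · intro m
      rcases m with _ | m
      · simp only [Nat.mul_zero, Nat.zero_add]
        rw [mu_zero_succ, mu_one_succ]
        push_cast
        linear_combination 54 * hm0
      · have e1 : mu (2 * (m + 1)) (j + 1) = 9 * (2 * m + 1) * (2 * m + 2) *
            ((6 * m + 5) * (6 * m + 8)) * mu (2 * m) j +
            18 * (2 * (2 * m) + 5) * (2 * m + 2) * mu (2 * m + 1) j := by
          rw [show 2 * (m + 1) = 2 * m + 2 by ring, mu_succ, kap_even]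
          push_cast
          ring
        have e2 : mu (2 * (m + 1) + 1) (j + 1) = 9 * (2 * m + 2) * (2 * m + 3) *
            ((6 * m + 7) * (6 * m + 10)) * mu (2 * m + 1) j +
            18 * (2 * (2 * m + 1) + 5) * (2 * m + 3) * mu (2 * m + 2) j := by
          rw [show 2 * (m + 1) + 1 = (2 * m + 1) + 2 by ring, mu_succ, kap_odd]
          push_cast
          ring
        have h1 := ih1 m
        have h2 := ih2 m
        have hd : (2 * (m : ℚ) + 1) * (3 * m + 4) * (3 * j + 2 - 3 * m) ≠ 0 := by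
          refine mul_ne_zero (mul_ne_zero (by positivity) (by positivity)) ?_
          intro h
          have : (3 * (j : ℤ) + 2 - 3 * m) = 0 := by exact_mod_cast h
          omega
        rw [e1, e2]
        refine mul_left_cancel₀ hd ?_
        push_cast
        linear_combination ((2 * ((m : ℚ) + 1) + 1) * (3 * (m + 1) + 4) *
          (3 * (j + 1) + 2 - 3 * (m + 1)) * (9 * (2 * m + 1) * (2 * m + 2) *
            ((6 * m + 5) * (6 * m + 8)))) * h1 +
          ((2 * (m : ℚ) + 1) * (3 * m + 4) * (3 * j + 2 - 3 * m) *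
            (18 * (2 * (2 * m + 1) + 5) * (2 * m + 3))) * h2
    · intro m
      rcases m with _ | m
      · simp only [Nat.mul_zero, Nat.zero_add]
        have e1 := mu_succ 0 j
        rw [Nat.zero_add] at e1
        rw [mu_one_succ, e1]
        have h1 := ih1 0
        have h2 := ih2 0
        simp only [Nat.mul_zero, Nat.zero_add] at h1 h2
        push_cast at h1 h2 ⊢
        have hk : kap 0 = 40 := by
          have := kap_even 0
          simp only [Nat.mul_zero] at this
          rw [this]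
          push_cast
          norm_num
        rw [hk]
        linear_combination (18 * 5 * 2 : ℚ) * h1 + 180 * hm0
      · have e1 : mu (2 * (m + 1) + 1) (j + 1) = 9 * (2 * m + 2) * (2 * m + 3) *
            ((6 * m + 7) * (6 * m + 10)) * mu (2 * m + 1) j +
            18 * (2 * (2 * m + 1) + 5) * (2 * m + 3) * mu (2 * (m + 1)) j := by
          rw [show 2 * (m + 1) + 1 = (2 * m + 1) + 2 by ring, mu_succ, kap_odd,
            show 2 * m + 1 + 1 = 2 * (m + 1) by ring]
          push_cast
          ring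
        have e2 : mu (2 * (m + 1) + 2) (j + 1) = 9 * (2 * m + 3) * (2 * m + 4) *
            ((6 * m + 11) * (6 * m + 14)) * mu (2 * (m + 1)) j +
            18 * (2 * (2 * m + 2) + 5) * (2 * m + 4) * mu (2 * (m + 1) + 1) j := by
          rw [mu_succ, kap_even]
          push_cast
          ring
        have h1 := ih1 (m + 1)
        have h2 := ih2 m
        rw [show 2 * m + 2 = 2 * (m + 1) by ring] at h2
        have hd : (2 * (m : ℚ) + 2) * (3 * m + 5) * (3 * j + 1 - 3 * m) ≠ 0 := by
          refine mul_ne_zero (mul_ne_zero (by positivity) (by positivity)) ?_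
          intro h
          have : (3 * (j : ℤ) + 1 - 3 * m) = 0 := by exact_mod_cast h
          omega
        rw [e1, e2]
        refine mul_left_cancel₀ hd ?_
        push_cast at h1 ⊢
        linear_combination ((2 * ((m : ℚ) + 1) + 2) * (3 * (m + 1) + 5) *
          (3 * (j + 1) + 1 - 3 * (m + 1)) * (9 * (2 * m + 2) * (2 * m + 3) *
            ((6 * m + 7) * (6 * m + 10)))) * h2 +
          ((2 * (m : ℚ) + 2) * (3 * m + 5) * (3 * j + 1 - 3 * m) *
            (18 * (2 * (2 * m + 2) + 5) * (2 * m + 4))) * h1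

/-- the Casoratian -/
noncomputable def wc : ℕ → ℚ
  | 0 => 1 / 3
  | (A + 1) => -(((A : ℚ) + 2) * (A + 3) / (9 * kap A)) * wc A

theorem WP_succ (A : ℕ) : WP (A + 1) A = wc A • (Yc ^ A * psi3) := by
  induction A with
  | zero =>
    have e2 : H2 0 = -(T (-1)) := by simp [H2, H1]
    have e3 : H2 1 = (1 / 3 : ℚ) • (T 2 + (2 : ℚ) • T (-1)) := by
      unfold H2
      rw [H1, map_smul, map_sub, map_neg, map_smul, invert_T, invert_T, ← smul_neg, neg_neg]
      congr 1
      abel
    unfold WP
    rw [zero_add, e2, e3, H1, H1, wc, pow_zero, one_mul, smul_mul_assoc, smul_mul_assoc, ← smul_sub]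
    congr 1
    unfold psi3
    rw [add_mul, sub_mul, smul_mul_assoc, smul_mul_assoc, neg_mul_neg, mul_neg, ← T_add, ← T_add,
      ← T_add, ← T_add]
    norm_num
  | succ A ih =>
    have h1 := H1_rec A
    have h2 := H2_rec A
    have hk := kap_ne A
    have h3 : kap A • WP (A + 1 + 1) (A + 1) =
        -((((A : ℚ) + 2) * (A + 3) / 9) • (Yc * WP (A + 1) A)) := by
      unfold WP
      rw [smul_sub, ← smul_mul_assoc, ← smul_mul_assoc, show A + 1 + 1 = A + 2 by ring, h1, h2,
        sub_mul, sub_mul]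
      simp only [smul_mul_assoc]
      rw [mul_comm (H2 (A + 1)) (H1 (A + 1)), sub_sub_sub_cancel_right, ← smul_sub, ← smul_neg]
      congr 1
      ring
    have h4 : WP (A + 1 + 1) (A + 1) = (kap A)⁻¹ • (kap A • WP (A + 1 + 1) (A + 1)) := by
      rw [smul_smul, inv_mul_cancel₀ hk, one_smul]
    rw [h4, h3, ih, wc, mul_smul_comm, smul_smul, ← neg_smul, smul_smul, pow_succ', mul_assoc]
    congr 1
    field_simp

noncomputable def X0 (A : ℕ) : ℚ := wc A * mu (2 * A + 2) A / (((2 * A + 2).factorial : ℚ)) ^ 2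

/-- closed form next to the diagonal -/
def x0 (A : ℕ) : ℚ := if A % 2 = 0 then 4 * (3 * A + 5) else -(4 * (3 * A + 4))

lemma x0_even (m : ℕ) : x0 (2 * m) = 4 * (6 * m + 5) := by
  unfold x0
  rw [if_pos (by omega)]
  push_cast
  ring

lemma x0_odd (m : ℕ) : x0 (2 * m + 1) = -(4 * (6 * m + 7)) := by
  unfold x0
  rw [if_neg (by omega)]
  push_cast
  ring

lemma mu_rel_diag (A : ℕ) :
    ((A : ℚ) + 3) * mu (2 * A + 3) A = -((2 * A + 3) * (3 * A + 7) * mu (2 * A + 2) A) := by
  have h := (mu_rel A).1 (A + 1)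
  rw [show 2 * (A + 1) = 2 * A + 2 by ring, show 2 * A + 2 + 1 = 2 * A + 3 by ring] at h
  push_cast at h
  linear_combination -h

theorem X0_eq (A : ℕ) : X0 A = x0 A := by
  induction A with
  | zero =>
    unfold X0 x0
    have e1 := (mu_rel 0).1 0
    have e2 := (mu_rel 0).2 0
    have e3 := mu_base 2
    have e4 : lamh 2 3 = 120 := by
      simp [lamh, prod_range_succ, eps]
      norm_num
    rw [e4] at e3
    simp only [wc, Nat.mul_zero, Nat.zero_add, e3]
    norm_num [Nat.factorial]
  | succ A ih =>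
    have h1 := mu_rel_diag A
    have h2 : mu (2 * A + 4) (A + 1) = 9 * (2 * A + 3) * (2 * A + 4) *
        ((6 * A + 11) * (6 * A + 14)) * mu (2 * A + 2) A +
        18 * (2 * (2 * A + 2) + 5) * (2 * A + 4) * mu (2 * A + 3) A := by
      rw [show 2 * A + 4 = (2 * A + 2) + 2 by ring, mu_succ, show 2 * A + 2 = 2 * (A + 1) by ring,
        kap_even]
      push_cast
      ring
    have h3 : mu (2 * A + 3) A = -((2 * A + 3) * (3 * A + 7) * mu (2 * A + 2) A) / ((A : ℚ) + 3) := by
      rw [eq_div_iff (by positivity), ← h1]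
      ring
    have h4 : X0 (A + 1) = -((3 * A + 7) * (3 * A + 8) / kap A) * X0 A := by
      unfold X0
      rw [show 2 * (A + 1) + 2 = 2 * A + 4 by ring, h2, h3, wc,
        show (2 * A + 4).factorial = (2 * A + 4) * ((2 * A + 3) * (2 * A + 2).factorial) by
          rw [Nat.factorial_succ (2 * A + 3), Nat.factorial_succ (2 * A + 2)]]
      have hk := kap_ne A
      have hf : ((2 * A + 2).factorial : ℚ) ≠ 0 := by positivity
      have a1 : (A : ℚ) + 3 ≠ 0 := by positivity
      have a2 : 2 * (A : ℚ) + 3 ≠ 0 := by positivity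
      have a3 : 2 * (A : ℚ) + 4 ≠ 0 := by positivity
      have a4 : (A : ℚ) + 2 ≠ 0 := by positivity
      push_cast
      field_simp
      ring
    rw [h4, ih]
    rcases Nat.even_or_odd' A with ⟨m, rfl | rfl⟩
    · rw [x0_even, x0_odd, kap_even]
      push_cast
      have b1 : (6 * (m : ℚ) + 5) ≠ 0 := by positivity
      have b2 : (6 * (m : ℚ) + 8) ≠ 0 := by positivity
      field_simp
      ring
    · rw [show 2 * m + 1 + 1 = 2 * (m + 1) by ring, x0_even, x0_odd, kap_odd]
      push_cast
      have b1 : (6 * (m : ℚ) + 7) ≠ 0 := by positivity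
      have b2 : (6 * (m : ℚ) + 10) ≠ 0 := by positivity
      field_simp
      ring

theorem MM_diag (A : ℕ) : MM (2 * A + 2) (A + 1) A = x0 A := by
  rw [MM_WP (by omega) (by omega), WP_succ, Lamc_smul, ← X0_eq]
  unfold X0 Lamc mu
  ring

theorem MM_diag' (A : ℕ) :
    MM (2 * A + 3) (A + 1) A = -((3 * A + 7) * x0 A / ((A + 3) * (2 * A + 3))) := by
  rw [MM_WP (by omega) (by omega), WP_succ, Lamc_smul, ← X0_eq]
  have h1 := mu_rel_diag A
  have h3 : mu (2 * A + 3) A = -((2 * A + 3) * (3 * A + 7) * mu (2 * A + 2) A) / ((A : ℚ) + 3) := by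
    rw [eq_div_iff (by positivity), ← h1]
    ring
  have h5 : Lamc (2 * A + 3) (Yc ^ A * psi3) =
      mu (2 * A + 3) A / (((2 * A + 3).factorial : ℚ)) ^ 2 := rfl
  rw [h5, h3]
  unfold X0
  rw [Nat.factorial_succ (2 * A + 2)]
  have hf : ((2 * A + 2).factorial : ℚ) ≠ 0 := by positivity
  have a1 : (A : ℚ) + 3 ≠ 0 := by positivity
  have a2 : 2 * (A : ℚ) + 3 ≠ 0 := by positivity
  push_cast
  rw [show (2 * (A : ℚ) + 2 + 1) = 2 * A + 3 by ring]
  field_simp

end Pool.Agent.H68.SlitH
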