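import Pool.Agent.H68.Slit.VRel

set_option autoImplicit false

/-!
# Homogeneous reduction of the slit strip law: closed form of `M_{A+B+1}(A,B)` (MP_fe58d8_pr)
-/

namespace Pool.Agent.H68.SlitH

/-- the closed form (for `A`, `B` not both even) -/
def qst (A B : ℕ) : ℚ :=
  if A % 2 = 0 then -(4 * (A + 2 * B + 3)) else (if B % 2 = 0 then 4 * (2 * A + B + 3)
    else -(4 * (A - B)))

lemma qst_eo (m n : ℕ) : qst (2 * m) (2 * n + 1) = -(4 * (2 * m + 2 * (2 * n + 1) + 3)) := by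
  unfold qst
  rw [if_pos (by omega)]
  push_cast
  rfl

lemma qst_oe (m n : ℕ) : qst (2 * m + 1) (2 * n) = 4 * (2 * (2 * m + 1) + 2 * n + 3) := by
  unfold qst
  rw [if_neg (by omega), if_pos (by omega)]
  push_cast
  rfl

lemma qst_oo (m n : ℕ) : qst (2 * m + 1) (2 * n + 1) = -(4 * (2 * m + 1 - (2 * n + 1))) := by
  unfold qst
  rw [if_neg (by omega), if_neg (by omega)]
  push_cast
  rfl

/-- the relation `(a)` for the closed forms -/
def RelQ (A B : ℕ) : Prop :=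
  kap A * qst (A + 2) B + 2 * (2 * A + 3) * (A + 3) * vst (A + 1) B =
    (A + 2) * (A + 3) * (kap (A + B + 1) / ((A + B + 3) * (A + B + 2)) * qst A B +
    2 * (2 * (A + B) + 7) / (A + B + 3) * vst A B)

lemma relQ_eo (m n : ℕ) : RelQ (2 * m) (2 * n + 1) := by
  unfold RelQ
  rw [show 2 * m + (2 * n + 1) + 1 = 2 * (m + n + 1) by ring, show 2 * m + 2 = 2 * (m + 1) by ring,
    kap_even, kap_even, qst_eo, qst_eo, vst_oo, vst_eo]
  unfold weo woo
  push_cast
  generalize hx : (m : ℚ) = x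
  generalize hy : (n : ℚ) = y
  have hx0 : 0 ≤ x := by rw [← hx]; positivity
  have hy0 : 0 ≤ y := by rw [← hy]; positivity
  have c1 : x + y + 2 ≠ 0 := by positivity
  have c2 : 2 * x + 2 * y + 3 ≠ 0 := by positivity
  have c3 : x + 1 ≠ 0 := by positivity
  have c5 : 2 * x + 3 ≠ 0 := by positivity
  have c6 : 2 * y + 3 ≠ 0 := by positivity
  rw [show 2 * x + 1 + (2 * y + 1) + 2 = 2 * (x + y + 2) by ring,
    show 2 * x + (2 * y + 1) + 3 = 2 * (x + y + 2) by ring,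
    show 2 * x + (2 * y + 1) + 2 = 2 * x + 2 * y + 3 by ring,
    show 2 * x + 1 + 2 = 2 * x + 3 by ring, show 2 * y + 1 + 2 = 2 * y + 3 by ring,
    show 2 * x + 2 = 2 * (x + 1) by ring]
  field_simp
  ring

lemma relQ_oe (m n : ℕ) : RelQ (2 * m + 1) (2 * n) := by
  unfold RelQ
  rw [show 2 * m + 1 + 2 * n + 1 = 2 * (m + n + 1) by ring,
    show 2 * m + 1 + 1 = 2 * (m + 1) by ring, show 2 * m + 1 + 2 = 2 * (m + 1) + 1 by ring,
    kap_odd, kap_even, qst_oe, qst_oe, vst_ee, vst_oe]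
  unfold weo wee
  push_cast
  generalize hx : (m : ℚ) = x
  generalize hy : (n : ℚ) = y
  have hx0 : 0 ≤ x := by rw [← hx]; positivity
  have hy0 : 0 ≤ y := by rw [← hy]; positivity
  have c1 : x + y + 2 ≠ 0 := by positivity
  have c2 : 2 * x + 2 * y + 3 ≠ 0 := by positivity
  have c3 : x + 2 ≠ 0 := by positivity
  have c5 : 2 * x + 3 ≠ 0 := by positivity
  have c6 : y + 1 ≠ 0 := by positivity
  rw [show 2 * (x + 1) + 2 * y + 2 = 2 * (x + y + 2) by ring,
    show 2 * (x + 1) + 2 = 2 * (x + 2) by ring, show 2 * y + 2 = 2 * (y + 1) by ring,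
    show 2 * x + 1 + 2 * y + 3 = 2 * (x + y + 2) by ring,
    show 2 * x + 1 + 2 * y + 2 = 2 * x + 2 * y + 3 by ring,
    show 2 * x + 1 + 2 = 2 * x + 3 by ring]
  field_simp
  ring

lemma relQ_oo (m n : ℕ) : RelQ (2 * m + 1) (2 * n + 1) := by
  unfold RelQ
  rw [show 2 * m + 1 + (2 * n + 1) + 1 = 2 * (m + n + 1) + 1 by ring,
    show 2 * m + 1 + 1 = 2 * (m + 1) by ring, show 2 * m + 1 + 2 = 2 * (m + 1) + 1 by ring,
    kap_odd, kap_odd, qst_oo, qst_oo, vst_eo, vst_oo]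
  unfold weo woo
  push_cast
  generalize hx : (m : ℚ) = x
  generalize hy : (n : ℚ) = y
  have hx0 : 0 ≤ x := by rw [← hx]; positivity
  have hy0 : 0 ≤ y := by rw [← hy]; positivity
  have c1 : x + y + 2 ≠ 0 := by positivity
  have c2 : 2 * x + 2 * y + 5 ≠ 0 := by positivity
  have c3 : x + 2 ≠ 0 := by positivity
  have c5 : 2 * x + 3 ≠ 0 := by positivity
  have c6 : 2 * y + 3 ≠ 0 := by positivity
  rw [show 2 * (x + 1) + (2 * y + 1) + 2 = 2 * x + 2 * y + 5 by ring,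
    show 2 * (x + 1) + 2 = 2 * (x + 2) by ring, show 2 * y + 1 + 2 = 2 * y + 3 by ring,
    show 2 * x + 1 + (2 * y + 1) + 3 = 2 * x + 2 * y + 5 by ring,
    show 2 * x + 1 + (2 * y + 1) + 2 = 2 * (x + y + 2) by ring,
    show 2 * x + 1 + 2 = 2 * x + 3 by ring]
  field_simp
  ring

theorem relQ {A B : ℕ} (h : ¬ (A % 2 = 0 ∧ B % 2 = 0)) : RelQ A B := by
  rcases Nat.even_or_odd' A with ⟨m, rfl | rfl⟩ <;> rcases Nat.even_or_odd' B with ⟨n, rfl | rfl⟩
  · omega
  · exact relQ_eo m n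
  · exact relQ_oe m n
  · exact relQ_oo m n

theorem QQ_anti {A B : ℕ} (h : ¬ (A % 2 = 0 ∧ B % 2 = 0)) : QQ A B = - QQ B A := by
  unfold QQ
  rw [add_comm B A]
  exact MM_anti (by omega) (by omega)

theorem qst_anti {A B : ℕ} (h : ¬ (A % 2 = 0 ∧ B % 2 = 0)) : qst A B = - qst B A := by
  rcases Nat.even_or_odd' A with ⟨m, rfl | rfl⟩ <;> rcases Nat.even_or_odd' B with ⟨n, rfl | rfl⟩
  · omega
  · rw [qst_eo, qst_oe]; ring
  · rw [qst_eo, qst_oe]; ring
  · rw [qst_oo, qst_oo]; ring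

lemma QQ_diag (A : ℕ) : QQ (A + 1) A = x0 A := by
  unfold QQ
  rw [show A + 1 + A + 1 = 2 * A + 2 by ring]
  exact MM_diag A

lemma qst_diag (A : ℕ) : qst (A + 1) A = x0 A := by
  rcases Nat.even_or_odd' A with ⟨m, rfl | rfl⟩
  · rw [qst_oe, x0_even]; ring
  · rw [show 2 * m + 1 + 1 = 2 * (m + 1) by ring, qst_eo, x0_odd]; push_cast; ring

lemma QQ_step {A B : ℕ} (h : ¬ (A % 2 = 0 ∧ B % 2 = 0)) (h1 : QQ A B = qst A B) :
    QQ (A + 2) B = qst (A + 2) B := by
  have r1 := QQ_a A B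
  have r2 := relQ h
  unfold rr at r1
  unfold RelQ at r2
  rw [VV_eq, VV_eq, h1] at r1
  refine mul_left_cancel₀ (kap_ne A) ?_
  linear_combination r1 - r2

theorem QQ_eq {A B : ℕ} (h : ¬ (A % 2 = 0 ∧ B % 2 = 0)) : QQ A B = qst A B := by
  have key1 : ∀ B, B % 2 = 1 → ∀ k, QQ (B + 2 * k) B = qst (B + 2 * k) B := by
    intro B hB k
    induction k with
    | zero =>
      have h1 := QQ_anti (A := B) (B := B) (by omega)
      have h2 := qst_anti (A := B) (B := B) (by omega)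
      rw [Nat.mul_zero, Nat.add_zero]
      linarith
    | succ k ih =>
      rw [show B + 2 * (k + 1) = B + 2 * k + 2 by ring]
      exact QQ_step (by omega) ih
  have key2 : ∀ B k, QQ (B + 1 + 2 * k) B = qst (B + 1 + 2 * k) B := by
    intro B k
    induction k with
    | zero => rw [Nat.mul_zero, Nat.add_zero, QQ_diag, qst_diag]
    | succ k ih =>
      rw [show B + 1 + 2 * (k + 1) = B + 1 + 2 * k + 2 by ring]
      exact QQ_step (by omega) ih
  have key3 : ∀ A B, B ≤ A → ¬ (A % 2 = 0 ∧ B % 2 = 0) → QQ A B = qst A B := by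
    intro A B hAB h
    obtain ⟨n, rfl⟩ := Nat.exists_eq_add_of_le hAB
    rcases Nat.even_or_odd' n with ⟨k, rfl | rfl⟩
    · exact key1 B (by omega) k
    · rw [show B + (2 * k + 1) = B + 1 + 2 * k by ring]
      exact key2 B k
  rcases le_total B A with hAB | hAB
  · exact key3 A B hAB h
  · rw [QQ_anti h, qst_anti h, key3 B A hAB (by omega)]

/-- `M_{A+B}(A,B)` -/
noncomputable def UU (A B : ℕ) : ℚ := MM (A + B) A B

theorem UU_a (A B : ℕ) : kap A * UU (A + 2) B + 2 * (2 * A + 3) * (A + 3) * QQ (A + 1) B =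
    (A + 2) * (A + 3) * (kap (A + B) / ((A + B + 2) * (A + B + 1)) * UU A B +
    2 * (2 * (A + B) + 5) / (A + B + 2) * QQ A B) := by
  have h := MM_rec (A + B) A B
  unfold UU QQ
  rw [show A + 2 + B = A + B + 2 by ring, show A + 1 + B + 1 = A + B + 2 by ring, h]
  push_cast
  ring

theorem UU_b (A B : ℕ) : kap B * UU A (B + 2) + 2 * (2 * B + 3) * (B + 3) * QQ A (B + 1) =
    (B + 2) * (B + 3) * (kap (A + B) / ((A + B + 2) * (A + B + 1)) * UU A B +
    2 * (2 * (A + B) + 5) / (A + B + 2) * QQ A B) := by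
  have h := MM_rec' (A + B) A B
  unfold UU QQ
  rw [show A + (B + 2) = A + B + 2 by ring, show A + (B + 1) + 1 = A + B + 2 by ring, h]
  push_cast
  ring

end Pool.Agent.H68.SlitH
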