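import Pool.Agent.H68.Slit.VV

set_option autoImplicit false

/-!
# Homogeneous reduction of the slit strip law: the closed form satisfies the relation, and
`M_{A+B+2}(A,B)` is equal to it (MP_fe58d8_pr)
-/

namespace Pool.Agent.H68.SlitH

lemma vst_rel_ee (m n : ℕ) : Rel vst (2 * m) (2 * n) := by
  unfold Rel
  rw [show 2 * m + 2 * n + 3 = 2 * (m + n + 1) + 1 by ring, show 2 * m + 2 = 2 * (m + 1) by ring,
    show 2 * n + 2 = 2 * (n + 1) by ring, kap_odd, kap_even, kap_even, vst_oe, vst_ee, vst_eo,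
    vst_eo, vst_ee, vst_oe]
  unfold wee weo
  push_cast
  generalize hx : (m : ℚ) = x
  generalize hy : (n : ℚ) = y
  have hx0 : 0 ≤ x := by rw [← hx]; positivity
  have hy0 : 0 ≤ y := by rw [← hy]; positivity
  have c1 : 2 * x + 2 * y + 5 ≠ 0 := by positivity
  have c2 : x + y + 2 ≠ 0 := by positivity
  have c3 : x + 1 ≠ 0 := by positivity
  have c4 : y + 1 ≠ 0 := by positivity
  have c5 : 2 * x + 3 ≠ 0 := by positivity
  have c6 : 2 * y + 3 ≠ 0 := by positivity
  have c7 : 2 * x + 2 * y + 3 ≠ 0 := by positivity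
  have c8 : x + 2 ≠ 0 := by positivity
  have c9 : y + 2 ≠ 0 := by positivity
  rw [show 2 * x + 2 * y + 4 = 2 * (x + y + 2) by ring,
    show 2 * x + 1 + 2 * y + 2 = 2 * x + 2 * y + 3 by ring,
    show 2 * x + 1 + 2 = 2 * x + 3 by ring, show 2 * y + 2 = 2 * (y + 1) by ring,
    show 2 * (x + 1) + 2 * y + 2 = 2 * (x + y + 2) by ring,
    show 2 * (x + 1) + 2 = 2 * (x + 2) by ring,
    show 2 * (x + 1) + (2 * y + 1) + 2 = 2 * x + 2 * y + 5 by ring,
    show 2 * y + 1 + 2 = 2 * y + 3 by ring,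
    show 2 * x + (2 * y + 1) + 2 = 2 * x + 2 * y + 3 by ring,
    show 2 * x + 2 = 2 * (x + 1) by ring,
    show 2 * x + 2 * (y + 1) + 2 = 2 * (x + y + 2) by ring,
    show 2 * (y + 1) + 2 = 2 * (y + 2) by ring,
    show 2 * x + 1 + 2 * (y + 1) + 2 = 2 * x + 2 * y + 5 by ring]
  field_simp
  ring

lemma vst_rel_eo (m n : ℕ) : Rel vst (2 * m) (2 * n + 1) := by
  unfold Rel
  rw [show 2 * m + (2 * n + 1) + 3 = 2 * (m + n + 2) by ring, show 2 * m + 2 = 2 * (m + 1) by ring,
    show 2 * n + 1 + 1 = 2 * (n + 1) by ring, show 2 * n + 1 + 2 = 2 * (n + 1) + 1 by ring,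
    kap_even, kap_even, kap_odd, vst_oo, vst_eo, vst_ee, vst_ee, vst_eo, vst_oo]
  unfold wee weo woo
  push_cast
  generalize hx : (m : ℚ) = x
  generalize hy : (n : ℚ) = y
  have hx0 : 0 ≤ x := by rw [← hx]; positivity
  have hy0 : 0 ≤ y := by rw [← hy]; positivity
  have c1 : 2 * x + 2 * y + 5 ≠ 0 := by positivity
  have c2 : x + y + 2 ≠ 0 := by positivity
  have c3 : x + 1 ≠ 0 := by positivity
  have c4 : y + 1 ≠ 0 := by positivity
  have c5 : 2 * x + 3 ≠ 0 := by positivity
  have c6 : 2 * y + 3 ≠ 0 := by positivity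
  have c7 : x + y + 3 ≠ 0 := by positivity
  have c8 : x + 2 ≠ 0 := by positivity
  have c9 : y + 2 ≠ 0 := by positivity
  have c10 : 2 * y + 5 ≠ 0 := by positivity
  rw [show 2 * x + (2 * y + 1) + 5 = 2 * (x + y + 3) by ring,
    show 2 * x + (2 * y + 1) + 4 = 2 * x + 2 * y + 5 by ring,
    show 2 * x + 1 + (2 * y + 1) + 2 = 2 * (x + y + 2) by ring,
    show 2 * x + 1 + 2 = 2 * x + 3 by ring,
    show 2 * y + 1 + 2 = 2 * y + 3 by ring,
    show 2 * (x + 1) + (2 * y + 1) + 2 = 2 * x + 2 * y + 5 by ring,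
    show 2 * (x + 1) + 2 = 2 * (x + 2) by ring,
    show 2 * (x + 1) + 2 * (y + 1) + 2 = 2 * (x + y + 3) by ring,
    show 2 * (y + 1) + 2 = 2 * (y + 2) by ring,
    show 2 * x + 2 * (y + 1) + 2 = 2 * (x + y + 2) by ring,
    show 2 * x + 2 = 2 * (x + 1) by ring,
    show 2 * x + (2 * (y + 1) + 1) + 2 = 2 * x + 2 * y + 5 by ring,
    show 2 * (y + 1) + 1 + 2 = 2 * y + 5 by ring,
    show 2 * x + 1 + (2 * (y + 1) + 1) + 2 = 2 * (x + y + 3) by ring]
  field_simp
  ring

lemma vst_rel_oo (m n : ℕ) : Rel vst (2 * m + 1) (2 * n + 1) := by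
  unfold Rel
  rw [show 2 * m + 1 + (2 * n + 1) + 3 = 2 * (m + n + 2) + 1 by ring,
    show 2 * m + 1 + 1 = 2 * (m + 1) by ring, show 2 * m + 1 + 2 = 2 * (m + 1) + 1 by ring,
    show 2 * n + 1 + 1 = 2 * (n + 1) by ring, show 2 * n + 1 + 2 = 2 * (n + 1) + 1 by ring,
    kap_odd, kap_odd, kap_odd, vst_eo, vst_oo, vst_oe, vst_oe, vst_oo, vst_eo]
  unfold weo woo
  push_cast
  generalize hx : (m : ℚ) = x
  generalize hy : (n : ℚ) = y
  have hx0 : 0 ≤ x := by rw [← hx]; positivity
  have hy0 : 0 ≤ y := by rw [← hy]; positivity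
  have c1 : 2 * x + 2 * y + 5 ≠ 0 := by positivity
  have c2 : x + y + 3 ≠ 0 := by positivity
  have c5 : 2 * x + 3 ≠ 0 := by positivity
  have c6 : 2 * y + 3 ≠ 0 := by positivity
  have c7 : 2 * x + 2 * y + 7 ≠ 0 := by positivity
  have c8 : x + 2 ≠ 0 := by positivity
  have c9 : y + 2 ≠ 0 := by positivity
  have c10 : 2 * y + 5 ≠ 0 := by positivity
  have c11 : 2 * x + 5 ≠ 0 := by positivity
  rw [show 2 * x + 1 + (2 * y + 1) + 5 = 2 * x + 2 * y + 7 by ring,
    show 2 * x + 1 + (2 * y + 1) + 4 = 2 * (x + y + 3) by ring,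
    show 2 * (x + 1) + (2 * y + 1) + 2 = 2 * x + 2 * y + 5 by ring,
    show 2 * (x + 1) + 2 = 2 * (x + 2) by ring,
    show 2 * y + 1 + 2 = 2 * y + 3 by ring,
    show 2 * (x + 1) + 1 + (2 * y + 1) + 2 = 2 * (x + y + 3) by ring,
    show 2 * (x + 1) + 1 + 2 = 2 * x + 5 by ring,
    show 2 * (x + 1) + 1 + 2 * (y + 1) + 2 = 2 * x + 2 * y + 7 by ring,
    show 2 * (y + 1) + 2 = 2 * (y + 2) by ring,
    show 2 * x + 1 + 2 * (y + 1) + 2 = 2 * x + 2 * y + 5 by ring,
    show 2 * x + 1 + 2 = 2 * x + 3 by ring,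
    show 2 * x + 1 + (2 * (y + 1) + 1) + 2 = 2 * (x + y + 3) by ring,
    show 2 * (y + 1) + 1 + 2 = 2 * y + 5 by ring,
    show 2 * (x + 1) + (2 * (y + 1) + 1) + 2 = 2 * x + 2 * y + 7 by ring]
  field_simp
  ring

lemma Rel_swap {v : ℕ → ℕ → ℚ} (hv : ∀ A B, v A B = - v B A) {A B : ℕ} (h : Rel v A B) :
    Rel v B A := by
  unfold Rel at h ⊢
  rw [hv (B + 1) A, hv (B + 2) A, hv (B + 2) (A + 1), hv B (A + 1), hv B (A + 2),
    hv (B + 1) (A + 2), add_comm B A, add_comm (B : ℚ) A]
  linear_combination h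

theorem vst_rel (A B : ℕ) : Rel vst A B := by
  rcases Nat.even_or_odd' A with ⟨m, rfl | rfl⟩ <;> rcases Nat.even_or_odd' B with ⟨n, rfl | rfl⟩
  · exact vst_rel_ee m n
  · exact vst_rel_eo m n
  · exact Rel_swap vst_anti (vst_rel_eo n m)
  · exact vst_rel_oo m n

/-- uniqueness: `M_{A+B+2}(A,B)` is given by the closed form -/
theorem VV_eq (A B : ℕ) : VV A B = vst A B := by
  have key : ∀ n : ℕ, ∀ A : ℕ, VV A (A + n) = vst A (A + n) := by
    intro n
    induction n using Nat.strong_induction_on with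
    | _ n ih =>
      intro A
      have hneg : ∀ k, k < n → ∀ A, VV (A + k) A = vst (A + k) A := by
        intro k hk A
        rw [VV_anti, vst_anti, ih k hk A]
      rcases n with _ | _ | n
      · rw [Nat.add_zero, VV_self, vst_self]
      · rw [Nat.zero_add, VV_anti, vst_anti, VV_diag, vst_diag]
      · have r1 := VV_rel A (A + n)
        have r2 := vst_rel A (A + n)
        unfold Rel at r1 r2
        have hc : ((A : ℚ) + 2) * (A + 3) *
            (kap (A + n) * (2 * (2 * ((A : ℚ) + ((A + n : ℕ) : ℚ)) + 11) /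
              (A + ((A + n : ℕ) : ℚ) + 5))) ≠ 0 := by
          have := kap_pos (A + n)
          positivity
        have e1 : VV A (A + n + 1) = vst A (A + n + 1) := by
          rw [add_assoc]
          exact ih (n + 1) (by omega) A
        have e2 : VV (A + 1) (A + n + 2) = vst (A + 1) (A + n + 2) := by
          rw [show A + n + 2 = A + 1 + (n + 1) by ring]
          exact ih (n + 1) (by omega) (A + 1)
        rw [show A + (n + 1 + 1) = A + n + 2 by ring]
        rcases n with _ | _ | n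
        · -- distance two
          simp only [Nat.add_zero] at *
          have e3 : VV (A + 1) A = vst (A + 1) A := by rw [VV_diag, vst_diag]
          have e4 : VV (A + 2) (A + 1) = vst (A + 2) (A + 1) := by
            have := VV_diag (A + 1)
            rw [this, ← vst_diag (A + 1)]
          have e5 := VV_anti (A + 2) A
          have e6 := vst_anti (A + 2) A
          rw [e3, e4, e1, e2, e5] at r1
          rw [e6] at r2
          refine mul_left_cancel₀ hc ?_
          linear_combination (-1 / 2 : ℚ) * r1 + (1 / 2 : ℚ) * r2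
        · -- distance three
          have e3 : VV (A + 1) (A + (0 + 1)) = vst (A + 1) (A + (0 + 1)) := by
            rw [Nat.zero_add, VV_self, vst_self]
          have e4 : VV (A + 2) (A + (0 + 1) + 1) = vst (A + 2) (A + (0 + 1) + 1) := by
            rw [show A + (0 + 1) + 1 = A + 2 by ring, VV_self, vst_self]
          have e5 : VV (A + 2) (A + (0 + 1)) = vst (A + 2) (A + (0 + 1)) := by
            have := VV_diag (A + 1)
            rw [show A + (0 + 1) = A + 1 by ring, show A + 2 = A + 1 + 1 by ring, this,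
              ← vst_diag (A + 1)]
          rw [e3, e4, e1, e2, e5] at r1
          refine mul_left_cancel₀ hc ?_
          linear_combination (-1 : ℚ) * r1 + r2
        · have e3 : VV (A + 1) (A + (n + 1 + 1)) = vst (A + 1) (A + (n + 1 + 1)) := by
            rw [show A + (n + 1 + 1) = A + 1 + (n + 1) by ring]
            exact ih (n + 1) (by omega) (A + 1)
          have e4 : VV (A + 2) (A + (n + 1 + 1) + 1) = vst (A + 2) (A + (n + 1 + 1) + 1) := by
            rw [show A + (n + 1 + 1) + 1 = A + 2 + (n + 1) by ring]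
            exact ih (n + 1) (by omega) (A + 2)
          have e5 : VV (A + 2) (A + (n + 1 + 1)) = vst (A + 2) (A + (n + 1 + 1)) := by
            rw [show A + (n + 1 + 1) = A + 2 + n by ring]
            exact ih n (by omega) (A + 2)
          rw [e3, e4, e1, e2, e5] at r1
          refine mul_left_cancel₀ hc ?_
          linear_combination (-1 : ℚ) * r1 + r2
  rcases le_total A B with h | h
  · obtain ⟨n, rfl⟩ := Nat.exists_eq_add_of_le h
    exact key n A
  · obtain ⟨n, rfl⟩ := Nat.exists_eq_add_of_le h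
    rw [VV_anti, vst_anti, key n B]

end Pool.Agent.H68.SlitH
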