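import Pool.Agent.H68.Slit.Mu

set_option autoImplicit false

/-!
# Homogeneous reduction of the slit strip law: closed form of `M_{A+B+2}(A,B)` (MP_fe58d8_pr)
-/

namespace Pool.Agent.H68.SlitH

open Finset

noncomputable def QQ (A B : ℕ) : ℚ := MM (A + B + 1) A B

noncomputable def VV (A B : ℕ) : ℚ := MM (A + B + 2) A B

noncomputable def rr (A B : ℕ) : ℚ :=
  kap (A + B + 1) / ((A + B + 3) * (A + B + 2)) * QQ A B +
    2 * (2 * (A + B) + 7) / (A + B + 3) * VV A B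

theorem QQ_a (A B : ℕ) : kap A * QQ (A + 2) B + 2 * (2 * A + 3) * (A + 3) * VV (A + 1) B =
    (A + 2) * (A + 3) * rr A B := by
  have h := MM_rec (A + B + 1) A B
  unfold QQ VV rr QQ VV
  rw [show A + 2 + B + 1 = A + B + 1 + 2 by ring, show A + 1 + B + 2 = A + B + 1 + 2 by ring, h]
  push_cast
  rw [show (A : ℚ) + B + 1 + 2 = A + B + 3 by ring, show (A : ℚ) + B + 1 + 1 = A + B + 2 by ring,
    show 2 * ((A : ℚ) + B + 1) + 5 = 2 * (A + B) + 7 by ring, show A + B + 1 + 1 = A + B + 2 by ring]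

theorem QQ_b (A B : ℕ) : kap B * QQ A (B + 2) + 2 * (2 * B + 3) * (B + 3) * VV A (B + 1) =
    (B + 2) * (B + 3) * rr A B := by
  have h := MM_rec' (A + B + 1) A B
  unfold QQ VV rr QQ VV
  rw [show A + (B + 2) + 1 = A + B + 1 + 2 by ring, show A + (B + 1) + 2 = A + B + 1 + 2 by ring, h]
  push_cast
  rw [show (A : ℚ) + B + 1 + 2 = A + B + 3 by ring, show (A : ℚ) + B + 1 + 1 = A + B + 2 by ring,
    show 2 * ((A : ℚ) + B + 1) + 5 = 2 * (A + B) + 7 by ring, show A + B + 1 + 1 = A + B + 2 by ring]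

/-- the relation between values of a function `v` used below -/
def Rel (v : ℕ → ℕ → ℚ) (A B : ℕ) : Prop :=
  (B + 2) * (B + 3) * (-(kap (A + B + 3) / ((A + B + 5) * (A + B + 4)) *
      (2 * (2 * A + 3) * (A + 3) * v (A + 1) B)) +
      kap A * (2 * (2 * (A + B) + 11) / (A + B + 5)) * v (A + 2) B) -
      kap A * (2 * (2 * B + 3) * (B + 3)) * v (A + 2) (B + 1) =
  (A + 2) * (A + 3) * (-(kap (A + B + 3) / ((A + B + 5) * (A + B + 4)) *
      (2 * (2 * B + 3) * (B + 3) * v A (B + 1))) +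
      kap B * (2 * (2 * (A + B) + 11) / (A + B + 5)) * v A (B + 2)) -
      kap B * (2 * (2 * A + 3) * (A + 3)) * v (A + 1) (B + 2)

theorem VV_rel (A B : ℕ) : Rel VV A B := by
  have a1 := QQ_a A B
  have b1 := QQ_b A B
  have b2 := QQ_b (A + 2) B
  have a2 := QQ_a A (B + 2)
  unfold rr at b2 a2
  rw [show A + 2 + B + 1 = A + B + 3 by ring] at b2
  rw [show A + (B + 2) + 1 = A + B + 3 by ring] at a2
  push_cast at b2 a2
  rw [show (A : ℚ) + 2 + B + 3 = A + B + 5 by ring, show (A : ℚ) + 2 + B + 2 = A + B + 4 by ring,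
    show 2 * ((A : ℚ) + 2 + B) + 7 = 2 * (A + B) + 11 by ring] at b2
  rw [show (A : ℚ) + (B + 2) + 3 = A + B + 5 by ring,
    show (A : ℚ) + (B + 2) + 2 = A + B + 4 by ring,
    show 2 * ((A : ℚ) + (B + 2)) + 7 = 2 * (A + B) + 11 by ring] at a2
  unfold Rel
  linear_combination (-kap A) * b2 + kap B * a2 -
    ((B : ℚ) + 2) * (B + 3) * (kap (A + B + 3) / ((A + B + 5) * (A + B + 4))) * a1 +
    ((A : ℚ) + 2) * (A + 3) * (kap (A + B + 3) / ((A + B + 5) * (A + B + 4))) * b1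

theorem VV_anti (A B : ℕ) : VV A B = - VV B A := by
  unfold VV
  rw [add_comm B A]
  exact MM_anti (by omega) (by omega)

theorem VV_self (A : ℕ) : VV A A = 0 := by
  have := VV_anti A A
  linarith

theorem VV_diag (A : ℕ) : VV (A + 1) A = -((3 * A + 7) * x0 A / ((A + 3) * (2 * A + 3))) := by
  unfold VV
  rw [show A + 1 + A + 2 = 2 * A + 3 by ring]
  exact MM_diag' A

def wee (a b : ℚ) : ℚ :=
  -(4 / 3 * (a - b) * (5 * (a ^ 2 + b ^ 2) + 8 * a * b + 21 * (a + b) + 22))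

def woo (a b : ℚ) : ℚ := 8 / 3 * (a - b) * (2 * a + b + 4) * (a + 2 * b + 4)

def weo (a b : ℚ) : ℚ :=
  4 / 3 * (72 + 94 * b + 39 * b ^ 2 + 5 * b ^ 3 + 68 * a + 54 * a * b + 12 * a * b ^ 2 +
    24 * a ^ 2 + 6 * a ^ 2 * b + 4 * a ^ 3)

/-- the closed form -/
def vst (A B : ℕ) : ℚ :=
  (if A % 2 = 0 then (if B % 2 = 0 then wee A B else weo A B)
    else (if B % 2 = 0 then -weo B A else woo A B)) / ((A + B + 2) * (A + 2) * (B + 2))

lemma vst_ee (m n : ℕ) : vst (2 * m) (2 * n) =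
    wee (2 * m) (2 * n) / ((2 * m + 2 * n + 2) * (2 * m + 2) * (2 * n + 2)) := by
  unfold vst
  rw [if_pos (by omega), if_pos (by omega)]
  push_cast
  rfl

lemma vst_eo (m n : ℕ) : vst (2 * m) (2 * n + 1) =
    weo (2 * m) (2 * n + 1) / ((2 * m + (2 * n + 1) + 2) * (2 * m + 2) * (2 * n + 1 + 2)) := by
  unfold vst
  rw [if_pos (by omega), if_neg (by omega)]
  push_cast
  rfl

lemma vst_oe (m n : ℕ) : vst (2 * m + 1) (2 * n) =
    -weo (2 * n) (2 * m + 1) / ((2 * m + 1 + 2 * n + 2) * (2 * m + 1 + 2) * (2 * n + 2)) := by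
  unfold vst
  rw [if_neg (by omega), if_pos (by omega)]
  push_cast
  rfl

lemma vst_oo (m n : ℕ) : vst (2 * m + 1) (2 * n + 1) =
    woo (2 * m + 1) (2 * n + 1) /
      ((2 * m + 1 + (2 * n + 1) + 2) * (2 * m + 1 + 2) * (2 * n + 1 + 2)) := by
  unfold vst
  rw [if_neg (by omega), if_neg (by omega)]
  push_cast
  rfl

theorem vst_anti (A B : ℕ) : vst A B = - vst B A := by
  rcases Nat.even_or_odd' A with ⟨m, rfl | rfl⟩ <;> rcases Nat.even_or_odd' B with ⟨n, rfl | rfl⟩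
  · rw [vst_ee, vst_ee]
    unfold wee
    rw [show (2 * (n : ℚ) + 2 * m + 2) * (2 * n + 2) * (2 * m + 2) =
      (2 * (m : ℚ) + 2 * n + 2) * (2 * m + 2) * (2 * n + 2) by ring]
    ring
  · rw [vst_eo, vst_oe]
    rw [show (2 * (n : ℚ) + 1 + 2 * m + 2) * (2 * n + 1 + 2) * (2 * m + 2) =
      (2 * (m : ℚ) + (2 * n + 1) + 2) * (2 * m + 2) * (2 * n + 1 + 2) by ring]
    ring
  · rw [vst_oe, vst_eo]
    rw [show (2 * (n : ℚ) + (2 * m + 1) + 2) * (2 * n + 2) * (2 * m + 1 + 2) =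
      (2 * (m : ℚ) + 1 + 2 * n + 2) * (2 * m + 1 + 2) * (2 * n + 2) by ring]
    ring
  · rw [vst_oo, vst_oo]
    unfold woo
    rw [show (2 * (n : ℚ) + 1 + (2 * m + 1) + 2) * (2 * n + 1 + 2) * (2 * m + 1 + 2) =
      (2 * (m : ℚ) + 1 + (2 * n + 1) + 2) * (2 * m + 1 + 2) * (2 * n + 1 + 2) by ring]
    ring

theorem vst_self (A : ℕ) : vst A A = 0 := by
  have := vst_anti A A
  linarith

theorem vst_diag (A : ℕ) : vst (A + 1) A = -((3 * A + 7) * x0 A / ((A + 3) * (2 * A + 3))) := by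
  rcases Nat.even_or_odd' A with ⟨m, rfl | rfl⟩
  · rw [vst_oe, x0_even]
    unfold weo
    push_cast
    have b1 : (2 * (m : ℚ) + 1 + 2 * m + 2) ≠ 0 := by positivity
    have b2 : (2 * (m : ℚ) + 1 + 2) ≠ 0 := by positivity
    have b3 : (2 * (m : ℚ) + 2) ≠ 0 := by positivity
    have b4 : (2 * (m : ℚ) + 3) ≠ 0 := by positivity
    have b5 : (2 * (2 * (m : ℚ)) + 3) ≠ 0 := by positivity
    rw [← neg_div, div_eq_div_iff (by positivity) (by positivity)]
    ring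
  · rw [show 2 * m + 1 + 1 = 2 * (m + 1) by ring, vst_eo, x0_odd]
    unfold weo
    push_cast
    rw [← neg_div, div_eq_div_iff (by positivity) (by positivity)]
    ring

end Pool.Agent.H68.SlitH
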